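import Mathlib

namespace Pool.Agent.MP_e90164_al.H74

open scoped Manifold ContDiff

/-- `B ≤ H` are subgroups of `G` which, in the subspace topology, are second countable real Lie
groups of dimensions `e` and `d`, the inclusion of `B` in `H` being an immersion. -/
def IsLieSubgroupPair {G : Type} [Group G] [TopologicalSpace G] (B H : Subgroup G) (e d : ℕ) :
    Prop :=
  ∃ (hBH : B ≤ H) (_ : ChartedSpace (EuclideanSpace ℝ (Fin e)) B)
    (_ : ChartedSpace (EuclideanSpace ℝ (Fin d)) H),
    SecondCountableTopology H ∧ LieGroup (𝓡 e) ∞ B ∧ LieGroup (𝓡 d) ∞ H ∧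
      Manifold.IsImmersion (𝓡 e) (𝓡 d) ∞ (Subgroup.inclusion hBH)

/-- `H` is a closed subgroup of `G` and a Lie group, `B` is a nilpotent simply connected normal
Lie subgroup of `H`, and `H / B` is isomorphic to `SL₂(ℝ)` as a topological group. -/
def IsSL2Extension {G : Type} [Group G] [TopologicalSpace G] (B H : Subgroup G) : Prop :=
  IsClosed (H : Set G) ∧ (∃ e d : ℕ, IsLieSubgroupPair B H e d) ∧ Group.IsNilpotent B ∧
    SimplyConnectedSpace B ∧ ∃ _ : (B.subgroupOf H).Normal,
      Nonempty (ContinuousMulEquiv (H ⧸ B.subgroupOf H) (Matrix.SpecialLinearGroup (Fin 2) ℝ))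

end Pool.Agent.MP_e90164_al.H74
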