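import Pool.Agent.MP_e90164_al.H74.Main

/-! An amalgam of unbounded dimension in which both `B₁` and `B₂` are self-centralising. -/

namespace Pool.Agent.MP_e90164_al.H74

open Set Topology Multiplicative
open scoped Manifold ContDiff Pointwise

section Central

/-- Normalised real cocycles. -/
structure Coc (H : Type) [Group H] where
  β : H → H → ℝ
  coc : ∀ x y z, β x y + β (x * y) z = β y z + β x (y * z)
  one : ∀ x, β 1 x = 0

variable {H : Type} [Group H]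

/-- The central extension given by a cocycle. -/
def CE (_c : Coc H) : Type := H × ℝ

variable (c : Coc H)

instance : Mul (CE c) := ⟨fun x y => (x.1 * y.1, x.2 + y.2 + c.β x.1 y.1)⟩
instance : One (CE c) := ⟨(1, 0)⟩
instance : Inv (CE c) := ⟨fun x => (x.1⁻¹, -x.2 - c.β x.1⁻¹ x.1)⟩

@[simp] lemma CE.mul_fst (x y : CE c) : (x * y).1 = x.1 * y.1 := rfl
@[simp] lemma CE.mul_snd (x y : CE c) : (x * y).2 = x.2 + y.2 + c.β x.1 y.1 := rfl
@[simp] lemma CE.one_fst : (1 : CE c).1 = 1 := rfl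
@[simp] lemma CE.one_snd : (1 : CE c).2 = 0 := rfl
@[simp] lemma CE.inv_fst (x : CE c) : (x⁻¹).1 = x.1⁻¹ := rfl
@[simp] lemma CE.inv_snd (x : CE c) : (x⁻¹).2 = -x.2 - c.β x.1⁻¹ x.1 := rfl

lemma CE.ext {x y : CE c} (h1 : x.1 = y.1) (h2 : x.2 = y.2) : x = y := Prod.ext h1 h2

instance : Group (CE c) := Group.ofLeftAxioms
  (fun x y z => CE.ext c (by simp [mul_assoc]) (by
    simp only [CE.mul_fst, CE.mul_snd]
    linear_combination c.coc x.1 y.1 z.1))
  (fun x => CE.ext c (by simp) (by simp [c.one]))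
  (fun x => CE.ext c (by simp) (by simp only [CE.mul_snd, CE.inv_snd, CE.inv_fst, CE.one_snd]; ring))

instance [TopologicalSpace H] : TopologicalSpace (CE c) :=
  inferInstanceAs (TopologicalSpace (H × ℝ))

lemma Coc.one' (x : H) : c.β x 1 = 0 := by
  have h := c.coc x 1 1
  simp only [mul_one, c.one] at h
  linarith

lemma CE.nilpotent [Group.IsNilpotent H] : Group.IsNilpotent (CE c) := by
  refine isNilpotent_of_ker_le_center
    (MonoidHom.mk' (fun x : CE c => x.1) (fun _ _ => rfl)) (fun x hx => ?_)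
  have h : x.1 = 1 := hx
  rw [Subgroup.mem_center_iff]
  intro g
  refine CE.ext c (by simp [h]) ?_
  simp [h, c.one, c.one', add_comm]

lemma GoodChart.ce [TopologicalSpace H] {F : Type} [NormedAddCommGroup F] [NormedSpace ℝ F]
    {φ : H → F} (h : GoodChart φ) (b : F × F → ℝ) (hb : ∀ x y, ContDiffAt ℝ ∞ b (φ x, φ y))
    (hb' : ∀ x y, c.β x y = b (φ x, φ y)) :
    GoodChart (fun x : CE c => ((φ x.1, x.2) : F × ℝ)) := by
  obtain ⟨m, hm, hm'⟩ := h.mul
  obtain ⟨i, hi, hi'⟩ := h.inv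
  refine ⟨h.emb.prodMap IsOpenEmbedding.id,
    ⟨fun p => (m (p.1.1, p.2.1), p.1.2 + p.2.2 + b (p.1.1, p.2.1)), fun x y => ?_,
      fun x y => by simp [hm', hb']⟩,
    ⟨fun p => (i p.1, -p.2 - b (i p.1, p.1)), fun x => ?_, fun x => by simp [hi', hb']⟩⟩
  · exact (cda_comp (fun p : (F × ℝ) × (F × ℝ) => (p.1.1, p.2.1)) (hm x.1 y.1)
      (by fun_prop) rfl).prodMk (ContDiffAt.add (by fun_prop)
      (cda_comp (fun p : (F × ℝ) × (F × ℝ) => (p.1.1, p.2.1)) (hb x.1 y.1) (by fun_prop) rfl))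
  · have h1 : ContDiffAt ℝ ∞ (fun p : F × ℝ => i p.1) (φ x.1, x.2) :=
      cda_comp (fun p : F × ℝ => p.1) (hi x.1) (by fun_prop) rfl
    refine h1.prodMk (ContDiffAt.sub (by fun_prop) ?_)
    refine cda_comp (fun p : F × ℝ => (i p.1, p.1)) (hb x.1⁻¹ x.1) (h1.prodMk (by fun_prop)) ?_
    simp [hi']

end Central

/-- The natural representation. -/
def nat : SL2 →* Module.End ℝ (ℝ × ℝ) where
  toFun g :=
    { toFun := fun p => (g 0 0 * p.1 + g 0 1 * p.2, g 1 0 * p.1 + g 1 1 * p.2)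
      map_add' := fun p q => Prod.ext (by simp; ring) (by simp; ring)
      map_smul' := fun a p => Prod.ext (by simp; ring) (by simp; ring) }
  map_one' := LinearMap.ext fun p => Prod.ext (by simp) (by simp)
  map_mul' g h := LinearMap.ext fun p =>
    Prod.ext (by simp [mul_entry]; ring) (by simp [mul_entry]; ring)

lemma nat_fst (g : SL2) (p : ℝ × ℝ) : (nat g p).1 = g 0 0 * p.1 + g 0 1 * p.2 := rfl
lemma nat_snd (g : SL2) (p : ℝ × ℝ) : (nat g p).2 = g 1 0 * p.1 + g 1 1 * p.2 := rfl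

lemma nat_eq_one {g : SL2} (h : ∀ p, nat g p = p) : g = 1 := by
  have a1 := congrArg Prod.fst (h (1, 0))
  have a2 := congrArg Prod.snd (h (1, 0))
  have a3 := congrArg Prod.fst (h (0, 1))
  have a4 := congrArg Prod.snd (h (0, 1))
  simp only [nat_fst, nat_snd, mul_one, mul_zero, add_zero, zero_add] at a1 a2 a3 a4
  ext i j
  fin_cases i <;> fin_cases j <;> simp [a1, a2, a3, a4]

abbrev EV (n : ℕ) := (ℝ × ℝ) × EE n

/-- The sum of the natural representation and the binary forms of degree `n`. -/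
noncomputable def rr (n : ℕ) : SL2 →* Module.End ℝ (EV n) where
  toFun g := LinearMap.prodMap (nat g) (rho n g)
  map_one' := by rw [map_one, map_one]; rfl
  map_mul' g h := by rw [map_mul, map_mul]; rfl

lemma rr_fst (n : ℕ) (g : SL2) (p : EV n) : (rr n g p).1 = nat g p.1 := rfl
lemma rr_snd (n : ℕ) (g : SL2) (p : EV n) : (rr n g p).2 = rho n g p.2 := rfl

def om (p q : ℝ × ℝ) : ℝ := p.1 * q.2 - p.2 * q.1

lemma om_nat (g : SL2) (p q : ℝ × ℝ) : om (nat g p) (nat g q) = om p q := by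
  simp only [om, nat_fst, nat_snd]
  linear_combination (p.1 * q.2 - p.2 * q.1) * det_eq g

noncomputable def cJ (n : ℕ) : Coc (SD (rr n)) where
  β x y := om x.1.1 (nat x.2 y.1.1)
  coc x y z := by
    simp only [SD.mul_fst, SD.mul_snd, Prod.fst_add, rr_fst, map_add, map_mul, Module.End.mul_apply]
    have := om_nat x.2 y.1.1 (nat y.2 z.1.1)
    simp only [om, Prod.fst_add, Prod.snd_add] at this ⊢
    linear_combination this
  one x := by simp [om]

def cU (n : ℕ) : Coc (Multiplicative (EV n)) where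
  β x y := om (toAdd x).1 (toAdd y).1
  coc x y z := by
    simp only [om, toAdd_mul, Prod.fst_add, Prod.snd_add]
    ring
  one x := by simp [om]

abbrev J1 (n : ℕ) := CE (cJ n)
abbrev U1 (n : ℕ) := CE (cU n)
abbrev J2 (n : ℕ) := SD nat × Multiplicative (EE n)

instance (n : ℕ) : Group.IsNilpotent (U1 n) := CE.nilpotent _

lemma cda_nat {A : Type} [NormedAddCommGroup A] [NormedSpace ℝ A] (f : A → ℝ × ℝ × ℝ)
    (v : A → ℝ × ℝ) {x : A} {g : SL2} (hf : ContDiffAt ℝ ∞ f x) (hv : ContDiffAt ℝ ∞ v x)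
    (h : f x = co g) : ContDiffAt ℝ ∞ (fun p => ((fa (f p) * (v p).1 + fb (f p) * (v p).2,
      fc (f p) * (v p).1 + fd (f p) * (v p).2) : ℝ × ℝ)) x := by
  have a1 := cda_comp f (cda_fa g) hf h
  have a2 := cda_comp f (cda_fb g) hf h
  have a3 := cda_comp f (cda_fc g) hf h
  have a4 := cda_comp f (cda_fd g) hf h
  exact ((a1.mul hv.fst).add (a2.mul hv.snd)).prodMk ((a3.mul hv.fst).add (a4.mul hv.snd))

lemma chart_nat : GoodChart (fun x : SD nat => ((x.1, co x.2) : (ℝ × ℝ) × ℝ × ℝ × ℝ)) :=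
  goodChart_co.sd nat (fun p => (fa p.1 * p.2.1 + fb p.1 * p.2.2, fc p.1 * p.2.1 + fd p.1 * p.2.2))
    (fun x v => cda_nat Prod.fst Prod.snd (by fun_prop) (by fun_prop) rfl)
    (fun x v => by simp only [fa_co, fb_co, fc_co, fd_co]; rfl)

lemma chart_rr (n : ℕ) : GoodChart (fun x : SD (rr n) => ((x.1, co x.2) : EV n × ℝ × ℝ × ℝ)) :=
  goodChart_co.sd (rr n) (fun p => ((fa p.1 * p.2.1.1 + fb p.1 * p.2.1.2,
      fc p.1 * p.2.1.1 + fd p.1 * p.2.1.2), act (fa p.1) (fb p.1) (fc p.1) (fd p.1) p.2.2))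
    (fun x v => (cda_nat Prod.fst (fun p : (ℝ × ℝ × ℝ) × EV n => p.2.1) (by fun_prop)
      (by fun_prop) rfl).prodMk (cda_act (cda_comp Prod.fst (cda_fa x) (by fun_prop) rfl)
      (cda_comp Prod.fst (cda_fb x) (by fun_prop) rfl)
      (cda_comp Prod.fst (cda_fc x) (by fun_prop) rfl)
      (cda_comp Prod.fst (cda_fd x) (by fun_prop) rfl) (by fun_prop)))
    (fun x v => by simp only [fa_co, fb_co, fc_co, fd_co]; rfl)

lemma chartJ1 (n : ℕ) :
    GoodChart (fun x : J1 n => (((x.1.1, co x.1.2), x.2) : (EV n × ℝ × ℝ × ℝ) × ℝ)) := by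
  refine (chart_rr n).ce (cJ n) (fun p => om p.1.1.1
    (fa p.1.2 * p.2.1.1.1 + fb p.1.2 * p.2.1.1.2, fc p.1.2 * p.2.1.1.1 + fd p.1.2 * p.2.1.1.2))
    (fun x y => ?_) (fun x y => by simp only [fa_co, fb_co, fc_co, fd_co]; rfl)
  have h := cda_nat (fun p : (EV n × ℝ × ℝ × ℝ) × (EV n × ℝ × ℝ × ℝ) => p.1.2)
    (fun p => p.2.1.1) (x := ((x.1, co x.2), (y.1, co y.2))) (g := x.2) (by fun_prop)
    (by fun_prop) rfl
  unfold om
  exact (ContDiffAt.mul (by fun_prop) h.snd).sub (ContDiffAt.mul (by fun_prop) h.fst)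

lemma chartU1 (n : ℕ) : GoodChart (fun x : U1 n => ((toAdd x.1, x.2) : EV n × ℝ)) :=
  goodChart_toAdd.ce (cU n) (fun p => om p.1.1 p.2.1)
    (fun x y => by unfold om; fun_prop) (fun x y => rfl)

lemma chartJ2 (n : ℕ) : GoodChart (Prod.map
    (fun x : SD nat => ((x.1, co x.2) : (ℝ × ℝ) × ℝ × ℝ × ℝ))
    (toAdd : Multiplicative (EE n) → EE n)) :=
  chart_nat.prod goodChart_toAdd

attribute [local irreducible] rho nS tS yS

noncomputable def i1 (n : ℕ) : U1 n →* J1 n := MonoidHom.mk'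
  (fun u => ((toAdd u.1, 1), u.2)) (by
    intro u w
    refine CE.ext _ (SD.ext _ ?_ (by simp)) ?_
    · simp
    · change u.2 + w.2 + om _ _ = u.2 + w.2 + om _ (nat 1 _)
      rw [map_one]; rfl)

noncomputable def i2 (n : ℕ) : U1 n →* J2 n := MonoidHom.mk'
  (fun u => (((u.2 - (toAdd u.1).1.1 * (toAdd u.1).1.2 - (toAdd u.1).2 0, -2 * (toAdd u.1).1.1),
    nS (toAdd u.1).1.2), ofAdd (toAdd u.1).2)) (by
    intro u w
    refine Prod.ext (SD.ext _ (Prod.ext ?_ ?_) (nS_add _ _)) rfl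
    · simp only [CE.mul_fst, CE.mul_snd, toAdd_mul, Prod.fst_add, Prod.snd_add, Pi.add_apply,
        Prod.fst_mul, SD.mul_fst, nat_fst, nS00, nS01, cU, om]
      ring
    · simp only [CE.mul_fst, toAdd_mul, Prod.fst_add, Prod.snd_add,
        Prod.fst_mul, SD.mul_fst, nat_snd, nS10, nS11]
      ring)

noncomputable def l2 (n : ℕ) : Multiplicative (EV n) →* J2 n := MonoidHom.mk'
  (fun p => (((toAdd p).1, 1), ofAdd (toAdd p).2)) (by
    intro u w
    refine Prod.ext (SD.ext _ ?_ (by simp)) rfl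
    simp)

noncomputable def eta (n : ℕ) : J1 n ≃ₜ J2 n × ℝ where
  toFun x := ((((x.2 - x.1.1.1.1 * x.1.1.1.2 - x.1.1.2 0, -2 * x.1.1.1.1),
    nS x.1.1.1.2 * yS x.1.2), ofAdd x.1.1.2), tS x.1.2)
  invFun z := ((((-z.1.1.1.2 / 2, tS z.1.1.2), toAdd z.1.2), nS z.2 * yS z.1.1.2),
    z.1.1.1.1 + -z.1.1.1.2 / 2 * tS z.1.1.2 + toAdd z.1.2 0)
  left_inv x := by
    refine CE.ext _ (SD.ext _ (Prod.ext (Prod.ext ?_ ?_) rfl) ?_) ?_
    · simp
    · simp [tS_nS_mul, tS_yS]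
    · simp [yS_nS_mul, yS_yS, nS_yS]
    · simp [tS_nS_mul, tS_yS]; ring
  right_inv z := by
    refine Prod.ext (Prod.ext (SD.ext _ (Prod.ext ?_ ?_) ?_) rfl) ?_
    · simp; ring
    · simp; ring
    · simp [yS_nS_mul, yS_yS, nS_yS]
    · simp [tS_nS_mul, tS_yS]
  continuous_toFun := by
    have := continuous_nS
    have := continuous_tS
    have := continuous_yS
    change Continuous (fun x : (EV n × SL2) × ℝ =>
      (((((x.2 - x.1.1.1.1 * x.1.1.1.2 - x.1.1.2 0, -2 * x.1.1.1.1),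
        nS x.1.1.1.2 * yS x.1.2), x.1.1.2), tS x.1.2) : (((ℝ × ℝ) × SL2) × EE n) × ℝ))
    fun_prop
  continuous_invFun := by
    have := continuous_nS
    have := continuous_tS
    have := continuous_yS
    change Continuous (fun z : (((ℝ × ℝ) × SL2) × EE n) × ℝ =>
      (((((-z.1.1.1.2 / 2, tS z.1.1.2), z.1.2), nS z.2 * yS z.1.1.2),
        z.1.1.1.1 + -z.1.1.1.2 / 2 * tS z.1.1.2 + z.1.2 0) : (EV n × SL2) × ℝ))
    fun_prop

lemma eta_mul {n : ℕ} (u : U1 n) (x : J1 n) :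
    eta n (i1 n u * x) = (i2 n u * (eta n x).1, (eta n x).2) := by
  have e : ∀ p : ℝ × ℝ, nat 1 p = p := fun p => by rw [map_one]; rfl
  have e' : ∀ p : EV n, rr n 1 p = p := fun p => by rw [map_one]; rfl
  refine Prod.ext (Prod.ext (SD.ext _ (Prod.ext ?_ ?_) ?_) ?_) ?_
  · change u.2 + x.2 + om (toAdd u.1).1 (nat 1 x.1.1.1) -
        (toAdd u.1 + rr n 1 x.1.1).1.1 * (toAdd u.1 + rr n 1 x.1.1).1.2 -
        (toAdd u.1 + rr n 1 x.1.1).2 0 =
      u.2 - (toAdd u.1).1.1 * (toAdd u.1).1.2 - (toAdd u.1).2 0 +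
        (nat (nS (toAdd u.1).1.2) (x.2 - x.1.1.1.1 * x.1.1.1.2 - x.1.1.2 0, -2 * x.1.1.1.1)).1
    simp only [e, e', nat_fst, nS00, nS01, om, Prod.fst_add, Prod.snd_add, Pi.add_apply]
    ring
  · change -2 * (toAdd u.1 + rr n 1 x.1.1).1.1 = -2 * (toAdd u.1).1.1 +
        (nat (nS (toAdd u.1).1.2) (x.2 - x.1.1.1.1 * x.1.1.1.2 - x.1.1.2 0, -2 * x.1.1.1.1)).2
    simp only [e', nat_snd, nS10, nS11, Prod.fst_add]
    ring
  · change nS (toAdd u.1 + rr n 1 x.1.1).1.2 * yS (1 * x.1.2) =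
      nS (toAdd u.1).1.2 * (nS x.1.1.1.2 * yS x.1.2)
    simp only [e', Prod.fst_add, Prod.snd_add, nS_add, one_mul, mul_assoc]
  · change ofAdd (toAdd u.1 + rr n 1 x.1.1).2 = ofAdd (toAdd u.1).2 * ofAdd x.1.1.2
    rw [e']; rfl
  · change tS (1 * x.1.2) = tS x.1.2
    rw [one_mul]

theorem exists_amalgam' (n : ℕ) :
    ∃ (G : Type) (_ : Group G) (_ : TopologicalSpace G) (_ : IsTopologicalGroup G)
      (_ : T2Space G) (ι₁ : J1 n →* G) (ι₂ : J2 n →* G), IsClosedEmbedding ι₁ ∧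
      IsClosedEmbedding ι₂ ∧ ι₁.range ⊔ ι₂.range = ⊤ ∧ ∀ u, ι₁ (i1 n u) = ι₂ (i2 n u) := by
  have := (chartJ1 n).isTopologicalGroup
  have := (chartJ2 n).isTopologicalGroup
  have : LocallyCompactSpace (J2 n) := (chartJ2 n).emb.locallyCompactSpace
  have : T2Space (J2 n) := (chartJ2 n).emb.isEmbedding.t2Space
  obtain ⟨G, a1, a2, a3, a4, ι₁, ι₂, h1, h2, h3, h4⟩ := exists_generated _ _
    (Hm.ofAct_closedEmbedding (fun (g : J1 n) (x : J2 n × ℝ) => eta n (g * (eta n).symm x))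
      (by fun_prop) (by simp) (by simp [mul_assoc]) (eta n 1) (eta n).symm (by fun_prop)
      (by simp))
    (Hm.ofAct_closedEmbedding (fun (g : J2 n) (x : J2 n × ℝ) => (g * x.1, x.2))
      (by fun_prop) (by simp) (by simp [mul_assoc]) (1, 0) Prod.fst (by fun_prop) (by simp))
  refine ⟨G, a1, a2, a3, a4, ι₁, ι₂, h1, h2, h3, fun u => h4 _ _ (Homeomorph.ext fun x => ?_)⟩
  change eta n (i1 n u * (eta n).symm x) = (i2 n u * x.1, x.2)
  rw [eta_mul, Homeomorph.apply_symm_apply]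

lemma l2_eq (n : ℕ) (p : Multiplicative (EV n)) : l2 n p =
    i2 n (ofAdd ((-(toAdd p).1.2 / 2, 0), (toAdd p).2), (toAdd p).1.1 + (toAdd p).2 0) := by
  refine Prod.ext (SD.ext _ (Prod.ext ?_ ?_) nS_zero.symm) rfl
  · change (toAdd p).1.1 = (toAdd p).1.1 + (toAdd p).2 0 - -(toAdd p).1.2 / 2 * 0 - (toAdd p).2 0
    ring
  · change (toAdd p).1.2 = -2 * (-(toAdd p).1.2 / 2)
    ring

lemma conj1 {n : ℕ} (g : SL2) (u : U1 n) :
    (show J1 n from ((0, g), 0)) * i1 n u * (show J1 n from ((0, g), 0))⁻¹ =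
      i1 n (ofAdd (rr n g (toAdd u.1)), u.2) := by
  rw [mul_inv_eq_iff_eq_mul]
  refine CE.ext _ (SD.ext _ ?_ ?_) ?_
  · simp [i1]
  · simp [i1]
  · simp [i1, cJ, om]
    rfl

lemma conj2 {n : ℕ} (g : SL2) (p : Multiplicative (EV n)) :
    (show J2 n from ((0, g), 1)) * l2 n p * (show J2 n from ((0, g), 1))⁻¹ =
      l2 n (ofAdd (nat g (toAdd p).1, (toAdd p).2)) := by
  refine Prod.ext (SD.ext _ ?_ ?_) ?_ <;> simp [l2]

def wS : SL2 := ⟨!![0, -1; 1, 0], by simp [Matrix.det_fin_two_of]⟩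

lemma nat_wS (p : ℝ × ℝ) : (nat wS p).2 = p.1 := by
  rw [nat_snd]
  change 1 * p.1 + 0 * p.2 = p.1
  ring

theorem main_faith (N : ℕ) :
    ∃ (G : Type) (_ : Group G) (_ : TopologicalSpace G) (_ : IsTopologicalGroup G)
      (_ : T2Space G) (G₁ G₂ B₁ B₂ : Subgroup G),
      G₁ ⊔ G₂ = ⊤ ∧ IsSL2Extension B₁ G₁ ∧ IsSL2Extension B₂ G₂ ∧
      (B₁ : Set G) * (B₂ : Set G) ⊆ (G₁ : Set G) ∩ (G₂ : Set G) ∧
      G₁ ⊓ Subgroup.centralizer (B₁ : Set G) ≤ B₁ ∧ G₂ ⊓ Subgroup.centralizer (B₂ : Set G) ≤ B₂ ∧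
      (∀ K : Subgroup G, K ≤ B₁ ⊓ B₂ → K.Normal → K = ⊥) ∧
      ∃ U : Subgroup G, (U : Set G) = (B₁ : Set G) * (B₂ : Set G) ∧
        ∃ m d : ℕ, N < m ∧ IsLieSubgroupPair U G₁ m d := by
  set n := N + 1 with hn
  obtain ⟨G, a1, a2, a3, a4, ι₁, ι₂, h1, h2, h3, h4⟩ := exists_amalgam' n
  have ei1 : IsEmbedding (i1 n) :=
    Function.LeftInverse.isEmbedding (f := fun z : J1 n => ((ofAdd z.1.1, z.2) : U1 n))
      (g := i1 n) (fun s => rfl)
      (show Continuous (fun z : (EV n × SL2) × ℝ => (z.1.1, z.2)) by fun_prop)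
      (show Continuous (fun p : EV n × ℝ => (((p.1, 1), p.2) : (EV n × SL2) × ℝ)) by fun_prop)
  have el2 : IsEmbedding (l2 n) :=
    Function.LeftInverse.isEmbedding (f := fun z : J2 n => ofAdd (z.1.1, toAdd z.2)) (g := l2 n)
      (fun s => rfl)
      (show Continuous (fun z : ((ℝ × ℝ) × SL2) × EE n => (z.1.1, z.2)) by fun_prop)
      (show Continuous (fun p : EV n => (((p.1, 1), p.2) : ((ℝ × ℝ) × SL2) × EE n)) by fun_prop)
  have hle : (ι₂.comp (l2 n)).range ≤ (ι₁.comp (i1 n)).range := by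
    rintro _ ⟨p, rfl⟩
    exact ⟨_, (h4 _).trans (congrArg ι₂ (l2_eq n p).symm)⟩
  have hU : (((ι₁.comp (i1 n)).range : Subgroup G) : Set G) =
      ((ι₁.comp (i1 n)).range : Set G) * ((ι₂.comp (l2 n)).range : Set G) := by
    apply Subset.antisymm
    · intro a ha
      exact ⟨a, ha, 1, one_mem _, mul_one a⟩
    · rintro _ ⟨a, ha, b, hb, rfl⟩
      exact mul_mem (s := (ι₁.comp (i1 n)).range) ha (hle hb)
  have inter : ∀ (u : U1 n) (p : Multiplicative (EV n)), ι₁ (i1 n u) = ι₂ (l2 n p) →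
      u = (ofAdd ((-(toAdd p).1.2 / 2, 0), (toAdd p).2), (toAdd p).1.1 + (toAdd p).2 0) := by
    intro u p h
    rw [l2_eq, ← h4] at h
    exact ei1.injective (h1.injective h)
  let eqv : ((EV n × ℝ) × ℝ × ℝ × ℝ) ≃L[ℝ] (EV n × ℝ × ℝ × ℝ) × ℝ :=
    (ContinuousLinearEquiv.prodAssoc ℝ _ _ _).trans
      (((ContinuousLinearEquiv.refl ℝ _).prodCongr (ContinuousLinearEquiv.prodComm ℝ _ _)).trans
      (ContinuousLinearEquiv.prodAssoc ℝ _ _ _).symm)
  have heqv : ∀ x : U1 n, ((((i1 n x).1.1, co (i1 n x).1.2), (i1 n x).2) :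
      (EV n × ℝ × ℝ × ℝ) × ℝ) = eqv ((toAdd x.1, x.2), 0) :=
    fun x => Prod.ext (Prod.ext rfl co_one) rfl
  refine ⟨G, a1, a2, a3, a4, ι₁.range, ι₂.range, (ι₁.comp (i1 n)).range,
    (ι₂.comp (l2 n)).range, h3, ?_, ?_, ?_, ?_, ?_, ?_, (ι₁.comp (i1 n)).range, hU, _, _, ?_,
    pair_of_charts ι₁ h1.isEmbedding _ ei1 (chartJ1 n) (chartU1 n) eqv heqv⟩
  · refine ext_of_charts ι₁ h1 _ ei1 (chartJ1 n) (chartU1 n) eqv heqv
      (fun p => ⟨(ofAdd p.1, p.2), rfl⟩)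
      (MonoidHom.mk' (fun z : J1 n => z.1.2) (fun _ _ => rfl))
      (show Continuous (fun z : (EV n × SL2) × ℝ => z.1.2) by fun_prop)
      (fun g => ((0, g), 0))
      (show Continuous (fun g : SL2 => (((0, g), 0) : (EV n × SL2) × ℝ)) by fun_prop)
      (fun _ => rfl) ?_
    ext z
    constructor
    · rintro ⟨p, rfl⟩; rfl
    · intro hz
      exact ⟨(ofAdd z.1.1, z.2), CE.ext _ (SD.ext _ rfl (Eq.symm hz)) rfl⟩
  · refine ext_of_charts (C := ℝ × ℝ × ℝ) ι₂ h2 _ el2 (chartJ2 n) goodChart_toAdd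
      ((ContinuousLinearEquiv.prodAssoc ℝ _ _ _).trans
        (((ContinuousLinearEquiv.refl ℝ _).prodCongr (ContinuousLinearEquiv.prodComm ℝ _ _)).trans
        (ContinuousLinearEquiv.prodAssoc ℝ _ _ _).symm))
      (fun x => Prod.ext (Prod.ext rfl co_one) rfl) (fun p => ⟨ofAdd p, rfl⟩)
      (MonoidHom.mk' (fun z : J2 n => z.1.2) (fun _ _ => rfl))
      (show Continuous (fun z : ((ℝ × ℝ) × SL2) × EE n => z.1.2) by fun_prop)
      (fun g => ((0, g), 1))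
      (show Continuous (fun g : SL2 => (((0, g), 0) : ((ℝ × ℝ) × SL2) × EE n)) by fun_prop)
      (fun _ => rfl) ?_
    ext z
    constructor
    · rintro ⟨p, rfl⟩; rfl
    · intro hz
      exact ⟨ofAdd (z.1.1, toAdd z.2), Prod.ext (SD.ext _ rfl (Eq.symm hz)) rfl⟩
  · rw [← hU]
    rintro _ ⟨u, rfl⟩
    exact ⟨⟨_, rfl⟩, ⟨_, (h4 u).symm⟩⟩
  · rintro _ ⟨⟨x, rfl⟩, hx⟩
    have hg : x.1.2 = 1 := by
      refine nat_eq_one fun p => ?_
      have e := Subgroup.mem_centralizer_iff.1 hx _ ⟨(ofAdd (p, 0), 0), rfl⟩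
      rw [MonoidHom.comp_apply, ← map_mul, ← map_mul] at e
      have e' := congrArg (fun z : J1 n => z.1.1.1) (h1.injective e)
      change p + (rr n 1 x.1.1).1 = x.1.1.1 + nat x.1.2 p at e'
      rw [map_one, add_comm] at e'
      exact (add_left_cancel e').symm
    exact ⟨(ofAdd x.1.1, x.2), congrArg ι₁ (CE.ext _ (SD.ext _ rfl hg.symm) rfl)⟩
  · rintro _ ⟨⟨x, rfl⟩, hx⟩
    have hg : x.1.2 = 1 := by
      refine nat_eq_one fun p => ?_
      have e := Subgroup.mem_centralizer_iff.1 hx _ ⟨ofAdd (p, 0), rfl⟩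
      rw [MonoidHom.comp_apply, ← map_mul, ← map_mul] at e
      have e' := congrArg (fun z : J2 n => z.1.1) (h2.injective e)
      change p + nat 1 x.1.1 = x.1.1 + nat x.1.2 p at e'
      rw [map_one, add_comm] at e'
      exact (add_left_cancel e').symm
    exact ⟨ofAdd (x.1.1, toAdd x.2), congrArg ι₂ (Prod.ext (SD.ext _ rfl hg.symm) rfl)⟩
  · intro K hK hKn
    have c1 : ∀ (g : SL2) (u : U1 n), ι₁ (i1 n u) ∈ K →
        ι₁ (i1 n (ofAdd (rr n g (toAdd u.1)), u.2)) ∈ K := by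
      intro g u hu
      have hc := hKn.conj_mem _ hu (ι₁ ((0, g), 0))
      rwa [← map_inv, ← map_mul, ← map_mul, conj1] at hc
    have c2 : ∀ (g : SL2) (p : Multiplicative (EV n)), ι₂ (l2 n p) ∈ K →
        ι₂ (l2 n (ofAdd (nat g (toAdd p).1, (toAdd p).2))) ∈ K := by
      intro g p hp
      have hc := hKn.conj_mem _ hp (ι₂ ((0, g), 1))
      rwa [← map_inv, ← map_mul, ← map_mul, conj2] at hc
    have s0 : ∀ u : U1 n, ι₁ (i1 n u) ∈ K → (toAdd u.1).1.2 = 0 := by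
      intro u hu
      obtain ⟨p, hp⟩ := (hK hu).2
      rw [inter u p hp.symm]
      rfl
    have s1 : ∀ p : Multiplicative (EV n), ι₂ (l2 n p) ∈ K → (toAdd p).1.2 = 0 := by
      intro p hp
      rw [l2_eq, ← h4] at hp
      have := s0 _ (c1 wS _ hp)
      change (nat wS (-(toAdd p).1.2 / 2, 0)).2 = 0 at this
      rw [nat_wS] at this
      linarith
    have s2 : ∀ p : Multiplicative (EV n), ι₂ (l2 n p) ∈ K → (toAdd p).1.1 = 0 := by
      intro p hp
      have := s1 _ (c2 wS _ hp)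
      change (nat wS (toAdd p).1).2 = 0 at this
      rwa [nat_wS] at this
    have s3 : ∀ u : U1 n, ι₁ (i1 n u) ∈ K → (toAdd u.1).2 0 = u.2 := by
      intro u hu
      obtain ⟨p, hp⟩ := (hK hu).2
      have := s2 p (by rw [← hp] at hu; exact hu)
      rw [inter u p hp.symm]
      change (toAdd p).2 0 = (toAdd p).1.1 + (toAdd p).2 0
      rw [this, zero_add]
    rw [eq_bot_iff]
    intro a ha
    obtain ⟨p, rfl⟩ := (hK ha).2
    have b1 := s1 p ha
    have b2 := s2 p ha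
    have ha' : ι₂ (l2 n p) ∈ K := ha
    rw [l2_eq, ← h4] at ha'
    have key : ∀ g : SL2, rho n g (toAdd p).2 0 = (toAdd p).1.1 + (toAdd p).2 0 :=
      fun g => s3 _ (c1 g _ ha')
    obtain ⟨b3, -⟩ := eq_zero_of_const (by omega) key
    have : p = 1 := toAdd.injective (Prod.ext (Prod.ext b2 b1) b3)
    rw [this, map_one]
    exact Subgroup.one_mem _
  · simp only [Module.finrank_prod, Module.finrank_fin_fun, Module.finrank_self]
    omega

end Pool.Agent.MP_e90164_al.H74
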