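import Pool.Agent.MP_e90164_al.H74.Defs

/-! General tools: Lie groups with one chart, homeomorphism groups, semidirect products. -/

namespace Pool.Agent.MP_e90164_al.H74

open Set Topology
open scoped Manifold ContDiff

lemma cda_comp {A B C : Type} [NormedAddCommGroup A] [NormedSpace ℝ A] [NormedAddCommGroup B]
    [NormedSpace ℝ B] [NormedAddCommGroup C] [NormedSpace ℝ C] {g : B → C} (f : A → B) {x : A}
    {y : B} (hg : ContDiffAt ℝ ∞ g y) (hf : ContDiffAt ℝ ∞ f x) (h : f x = y) :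
    ContDiffAt ℝ ∞ (fun p => g (f p)) x := by
  subst h; exact hg.comp x hf

section Chart

variable {Γ Δ F F' : Type} [Group Γ] [TopologicalSpace Γ] [Group Δ] [TopologicalSpace Δ]
  [NormedAddCommGroup F] [NormedSpace ℝ F] [NormedAddCommGroup F'] [NormedSpace ℝ F']

/-- A global chart in which the group operations are smooth. -/
structure GoodChart (φ : Γ → F) : Prop where
  emb : IsOpenEmbedding φ
  mul : ∃ m : F × F → F, (∀ x y, ContDiffAt ℝ ∞ m (φ x, φ y)) ∧ ∀ x y, φ (x * y) = m (φ x, φ y)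
  inv : ∃ i : F → F, (∀ x, ContDiffAt ℝ ∞ i (φ x)) ∧ ∀ x, φ x⁻¹ = i (φ x)

lemma GoodChart.lieGroup {φ : Γ → F} (h : GoodChart φ) :
    letI := h.emb.singletonChartedSpace; LieGroup 𝓘(ℝ, F) ∞ Γ := by
  letI := h.emb.singletonChartedSpace
  have hv : ContMDiff 𝓘(ℝ, F) 𝓘(ℝ, F) ∞ φ := contMDiff_isOpenEmbedding h.emb
  have : IsManifold 𝓘(ℝ, F) ∞ Γ := h.emb.isManifold_singleton
  obtain ⟨m, hm, hm'⟩ := h.mul
  obtain ⟨i, hi, hi'⟩ := h.inv
  exact
  { contMDiff_mul := by
      apply ContMDiff.of_comp_isOpenEmbedding h.emb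
      have e : φ ∘ (fun x : Γ × Γ => x.1 * x.2) = m ∘ (fun x : Γ × Γ => (φ x.1, φ x.2)) := by
        ext; simp [hm']
      rw [e]
      have h2 : ContMDiff (𝓘(ℝ, F).prod 𝓘(ℝ, F)) 𝓘(ℝ, F × F) ∞
          (fun x : Γ × Γ => (φ x.1, φ x.2)) :=
        (hv.comp contMDiff_fst).prodMk_space (hv.comp contMDiff_snd)
      exact fun x => ContMDiffAt.comp x (contMDiffAt_iff_contDiffAt.2 (hm x.1 x.2)) (h2 x)
    contMDiff_inv := by
      apply ContMDiff.of_comp_isOpenEmbedding h.emb
      have e : φ ∘ (fun x : Γ => x⁻¹) = i ∘ φ := by ext; simp [hi']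
      rw [e]
      exact fun x => ContMDiffAt.comp x (contMDiffAt_iff_contDiffAt.2 (hi x)) (hv x) }

lemma GoodChart.comp_cle {φ : Γ → F} (h : GoodChart φ) (L : F ≃L[ℝ] F') : GoodChart (L ∘ φ) := by
  obtain ⟨m, hm, hm'⟩ := h.mul
  obtain ⟨i, hi, hi'⟩ := h.inv
  refine ⟨L.toHomeomorph.isOpenEmbedding.comp h.emb,
    ⟨fun p => L (m (L.symm p.1, L.symm p.2)), fun x y => ?_, fun x y => by simp [hm']⟩,
    ⟨fun p => L (i (L.symm p)), fun x => ?_, fun x => by simp [hi']⟩⟩
  · refine L.contDiff.contDiffAt.comp _ (ContDiffAt.comp _ (g := m) ?_ (by fun_prop))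
    simpa using hm x y
  · refine L.contDiff.contDiffAt.comp _ (ContDiffAt.comp _ (g := i) ?_ (by fun_prop))
    simpa using hi x

lemma GoodChart.comp_equiv {φ : Γ → F} (h : GoodChart φ) (e : Δ ≃ₜ* Γ) : GoodChart (φ ∘ e) := by
  obtain ⟨m, hm, hm'⟩ := h.mul
  obtain ⟨i, hi, hi'⟩ := h.inv
  exact ⟨h.emb.comp e.toHomeomorph.isOpenEmbedding,
    ⟨m, fun x y => hm _ _, fun x y => by simp [hm']⟩, ⟨i, fun x => hi _, fun x => by simp [hi']⟩⟩

lemma GoodChart.prod {φ : Γ → F} {ψ : Δ → F'} (h : GoodChart φ) (h' : GoodChart ψ) :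
    GoodChart (Prod.map φ ψ) := by
  obtain ⟨m, hm, hm'⟩ := h.mul
  obtain ⟨i, hi, hi'⟩ := h.inv
  obtain ⟨n, hn, hn'⟩ := h'.mul
  obtain ⟨j, hj, hj'⟩ := h'.inv
  refine ⟨h.emb.prodMap h'.emb,
    ⟨fun p => (m (p.1.1, p.2.1), n (p.1.2, p.2.2)), fun x y => ?_,
      fun x y => Prod.ext (hm' _ _) (hn' _ _)⟩,
    ⟨fun p => (i p.1, j p.2), fun x => ?_, fun x => Prod.ext (hi' _) (hj' _)⟩⟩
  · exact (cda_comp (fun p : (F × F') × (F × F') => (p.1.1, p.2.1)) (hm x.1 y.1)
      (by fun_prop) rfl).prodMk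
      (cda_comp (fun p : (F × F') × (F × F') => (p.1.2, p.2.2)) (hn x.2 y.2) (by fun_prop) rfl)
  · exact (cda_comp (fun p : F × F' => p.1) (hi x.1) (by fun_prop) rfl).prodMk
      (cda_comp (fun p : F × F' => p.2) (hj x.2) (by fun_prop) rfl)

lemma goodChart_toAdd : GoodChart (Multiplicative.toAdd : Multiplicative F → F) :=
  ⟨IsOpenEmbedding.id, ⟨fun p => p.1 + p.2, fun _ _ => by fun_prop, fun _ _ => rfl⟩,
    ⟨fun p => -p, fun _ => by fun_prop, fun _ => rfl⟩⟩

lemma isImmersion_of_charts {C : Type} [NormedAddCommGroup C] [NormedSpace ℝ C]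
    {φ : Γ → F} {ψ : Δ → F'} (h : GoodChart φ) (h' : GoodChart ψ) (f : Δ → Γ)
    (eqv : (F' × C) ≃L[ℝ] F) (hf : ∀ x, φ (f x) = eqv (ψ x, 0)) :
    letI := h.emb.singletonChartedSpace; letI := h'.emb.singletonChartedSpace
    Manifold.IsImmersion 𝓘(ℝ, F') 𝓘(ℝ, F) ∞ f := by
  letI := h.emb.singletonChartedSpace
  letI := h'.emb.singletonChartedSpace
  have : IsManifold 𝓘(ℝ, F) ∞ Γ := h.emb.isManifold_singleton
  have : IsManifold 𝓘(ℝ, F') ∞ Δ := h'.emb.isManifold_singleton
  refine ⟨C, inferInstance, inferInstance, fun x => ?_⟩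
  refine Manifold.IsImmersionAtOfComplement.mk_of_charts eqv (chartAt F' x) (chartAt F (f x))
    (mem_chart_source _ _) (mem_chart_source _ _) (IsManifold.chart_mem_maximalAtlas _)
    (IsManifold.chart_mem_maximalAtlas _) (fun y _ => mem_univ _) ?_
  intro y hy
  have h1 : (chartAt F' x) ((chartAt F' x).symm y) = y :=
    (chartAt F' x).right_inv (by simpa using hy)
  have h2 : ψ ((chartAt F' x).symm y) = y := h1
  change φ (f ((chartAt F' x).symm y)) = eqv (y, 0)
  rw [hf, h2]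

/-- The range of an injective homomorphism that is a topological embedding. -/
noncomputable def rangeEquiv {G : Type} [Group G] [TopologicalSpace G] (ι : Γ →* G)
    (hι : IsEmbedding ι) : Γ ≃ₜ* ι.range :=
  { MonoidHom.ofInjective hι.injective with
    continuous_toFun := hι.continuous.subtype_mk _
    continuous_invFun := by
      rw [hι.continuous_iff]
      convert continuous_subtype_val using 1
      funext x
      exact MonoidHom.apply_ofInjective_symm hι.injective x }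

lemma rangeEquiv_coe {G : Type} [Group G] [TopologicalSpace G] (ι : Γ →* G)
    (hι : IsEmbedding ι) (x : Γ) : (rangeEquiv ι hι x : G) = ι x := rfl

lemma pair_of_charts {G C : Type} [Group G] [TopologicalSpace G]
    [NormedAddCommGroup C] [NormedSpace ℝ C] [FiniteDimensional ℝ F] [FiniteDimensional ℝ F']
    (ι : Γ →* G) (hι : IsEmbedding ι) (κ : Δ →* Γ) (hκ : IsEmbedding κ)
    {φ : Γ → F} {ψ : Δ → F'} (h : GoodChart φ) (h' : GoodChart ψ)
    (eqv : (F' × C) ≃L[ℝ] F) (hf : ∀ x, φ (κ x) = eqv (ψ x, 0)) :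
    IsLieSubgroupPair (ι.comp κ).range ι.range (Module.finrank ℝ F') (Module.finrank ℝ F) := by
  have hικ : IsEmbedding (ι.comp κ) := hι.comp hκ
  let L : F ≃L[ℝ] EuclideanSpace ℝ (Fin (Module.finrank ℝ F)) :=
    ContinuousLinearEquiv.ofFinrankEq (by simp)
  let L' : F' ≃L[ℝ] EuclideanSpace ℝ (Fin (Module.finrank ℝ F')) :=
    ContinuousLinearEquiv.ofFinrankEq (by simp)
  have g := (h.comp_cle L).comp_equiv (rangeEquiv ι hι).symm
  have g' := (h'.comp_cle L').comp_equiv (rangeEquiv _ hικ).symm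
  have hle : (ι.comp κ).range ≤ ι.range := by rintro _ ⟨x, rfl⟩; exact ⟨κ x, rfl⟩
  refine ⟨hle, g'.emb.singletonChartedSpace, g.emb.singletonChartedSpace,
    g.emb.isEmbedding.secondCountableTopology, g'.lieGroup, g.lieGroup, ?_⟩
  refine isImmersion_of_charts g g' _
    ((L'.symm.prodCongr (ContinuousLinearEquiv.refl ℝ C)).trans (eqv.trans L)) (fun x => ?_)
  obtain ⟨y, rfl⟩ := (rangeEquiv _ hικ).surjective x
  have : Subgroup.inclusion hle (rangeEquiv _ hικ y) = rangeEquiv ι hι (κ y) := rfl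
  simp [this, hf]

lemma ext_of_charts {G C : Type} [Group G] [TopologicalSpace G] [IsTopologicalGroup G]
    [NormedAddCommGroup C] [NormedSpace ℝ C] [FiniteDimensional ℝ F] [FiniteDimensional ℝ F']
    (ι : Γ →* G) (hι : IsClosedEmbedding ι) (κ : Δ →* Γ) (hκ : IsEmbedding κ)
    {φ : Γ → F} {ψ : Δ → F'} (h : GoodChart φ) (h' : GoodChart ψ)
    (eqv : (F' × C) ≃L[ℝ] F) (hf : ∀ x, φ (κ x) = eqv (ψ x, 0))
    (hψ : Function.Surjective ψ) [Group.IsNilpotent Δ]
    (π : Γ →* Matrix.SpecialLinearGroup (Fin 2) ℝ) (hπ : Continuous π)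
    (σ : Matrix.SpecialLinearGroup (Fin 2) ℝ → Γ) (hσ : Continuous σ) (hπσ : ∀ g, π (σ g) = g)
    (hker : κ.range = π.ker) : IsSL2Extension (ι.comp κ).range ι.range := by
  have hικ : IsEmbedding (ι.comp κ) := hι.isEmbedding.comp hκ
  let e := rangeEquiv ι hι.isEmbedding
  let π' : ι.range →* Matrix.SpecialLinearGroup (Fin 2) ℝ := π.comp e.symm.toMulEquiv.toMonoidHom
  have hk : (ι.comp κ).range.subgroupOf ι.range = π'.ker := by
    ext x
    obtain ⟨y, rfl⟩ := e.surjective x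
    have h1 : π' (e y) = π y := congrArg π (e.symm_apply_apply y)
    rw [MonoidHom.mem_ker, h1, ← MonoidHom.mem_ker, ← hker, Subgroup.mem_subgroupOf]
    constructor
    · rintro ⟨z, hz⟩
      exact ⟨z, hι.injective hz⟩
    · rintro ⟨z, rfl⟩
      exact ⟨z, rfl⟩
  have hn : ((ι.comp κ).range.subgroupOf ι.range).Normal := hk ▸ inferInstance
  refine ⟨hι.isClosed_range, ⟨_, _, pair_of_charts ι hι.isEmbedding κ hκ h h' eqv hf⟩,
    Group.nilpotent_of_mulEquiv (rangeEquiv _ hικ).toMulEquiv, ?_, hn, ⟨?_⟩⟩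
  · have : ContractibleSpace (ι.comp κ).range :=
      ((rangeEquiv _ hικ).toHomeomorph.symm.trans
        (h'.emb.isEmbedding.toHomeomorphOfSurjective hψ)).contractibleSpace
    infer_instance
  · have hr : Function.RightInverse (fun g => e (σ g)) π' := fun g =>
      (congrArg π (e.symm_apply_apply (σ g))).trans (hπσ g)
    exact
    { (QuotientGroup.quotientMulEquivOfEq hk).trans
        (QuotientGroup.quotientKerEquivOfRightInverse π' _ hr) with
      continuous_toFun := by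
        rw [(QuotientGroup.isQuotientMap_mk _).continuous_iff]
        exact hπ.comp e.symm.continuous
      continuous_invFun := QuotientGroup.continuous_mk.comp (e.continuous.comp hσ) }

end Chart

section Homeo

/-- The group of homeomorphisms of `X`. -/
def Hm (X : Type) [TopologicalSpace X] : Type := X ≃ₜ X

variable {X : Type} [TopologicalSpace X]

instance : Group (Hm X) := inferInstanceAs (Group (X ≃ₜ X))

def Hm.toC (f : Hm X) : C(X, X) := ⟨(show X ≃ₜ X from f), (show X ≃ₜ X from f).continuous⟩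

instance : TopologicalSpace (Hm X) :=
  TopologicalSpace.induced (fun f : Hm X => (f.toC, f⁻¹.toC)) inferInstance

lemma Hm.isInducing : IsInducing (fun f : Hm X => (f.toC, f⁻¹.toC)) := ⟨rfl⟩

lemma Hm.continuous_toC : Continuous (Hm.toC : Hm X → C(X, X)) :=
  continuous_fst.comp Hm.isInducing.continuous

lemma Hm.continuous_toC_inv : Continuous (fun f : Hm X => f⁻¹.toC) :=
  continuous_snd.comp Hm.isInducing.continuous

lemma Hm.toC_injective : Function.Injective (Hm.toC : Hm X → C(X, X)) := fun _ _ h =>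
  Homeomorph.ext (fun x => DFunLike.congr_fun h x)

instance [LocallyCompactSpace X] : IsTopologicalGroup (Hm X) where
  continuous_mul := by
    rw [Hm.isInducing.continuous_iff]
    refine Continuous.prodMk ?_ ?_
    · exact ContinuousMap.continuous_comp'.comp
        ((Hm.continuous_toC.comp continuous_snd).prodMk (Hm.continuous_toC.comp continuous_fst))
    · exact ContinuousMap.continuous_comp'.comp
        ((Hm.continuous_toC_inv.comp continuous_fst).prodMk
          (Hm.continuous_toC_inv.comp continuous_snd))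
  continuous_inv := by
    rw [Hm.isInducing.continuous_iff]
    exact Hm.continuous_toC_inv.prodMk Hm.continuous_toC

instance [T2Space X] : T2Space (Hm X) :=
  T2Space.of_injective_continuous Hm.toC_injective Hm.continuous_toC

variable {Γ : Type} [Group Γ] [TopologicalSpace Γ] [IsTopologicalGroup Γ]

/-- The homomorphism to `Hm X` given by a continuous action. -/
def Hm.ofAct (a : Γ → X → X) (ha : Continuous (fun p : Γ × X => a p.1 p.2))
    (h1 : ∀ x, a 1 x = x) (hm : ∀ g h x, a (g * h) x = a g (a h x)) : Γ →* Hm X where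
  toFun g := show X ≃ₜ X from
    { toFun := a g
      invFun := a g⁻¹
      left_inv := fun x => by rw [← hm]; simp [h1]
      right_inv := fun x => by rw [← hm]; simp [h1]
      continuous_toFun := ha.comp (Continuous.prodMk_right g)
      continuous_invFun := ha.comp (Continuous.prodMk_right g⁻¹) }
  map_one' := Homeomorph.ext h1
  map_mul' g h := Homeomorph.ext (hm g h)

lemma Hm.ofAct_closedEmbedding [T2Space X] (a : Γ → X → X)
    (ha : Continuous (fun p : Γ × X => a p.1 p.2))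
    (h1 : ∀ x, a 1 x = x) (hm : ∀ g h x, a (g * h) x = a g (a h x))
    (x0 : X) (r : X → Γ) (hr : Continuous r) (hrx : ∀ g, r (a g x0) = g) :
    IsClosedEmbedding (Hm.ofAct a ha h1 hm) := by
  refine Function.LeftInverse.isClosedEmbedding (f := fun f : Hm X => r (f.toC x0)) hrx
    (hr.comp ((continuous_eval_const x0).comp Hm.continuous_toC)) ?_
  rw [Hm.isInducing.continuous_iff]
  refine Continuous.prodMk ?_ ?_
  · exact ContinuousMap.continuous_of_continuous_uncurry _ ha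
  · exact ContinuousMap.continuous_of_continuous_uncurry _
      (ha.comp ((continuous_inv.comp continuous_fst).prodMk continuous_snd))

/-- Two closed embeddings into a group can be corestricted to the subgroup they generate. -/
lemma exists_generated {H Γ₁ Γ₂ : Type} [Group H] [TopologicalSpace H] [IsTopologicalGroup H]
    [T2Space H] [Group Γ₁] [TopologicalSpace Γ₁] [Group Γ₂] [TopologicalSpace Γ₂]
    (ρ₁ : Γ₁ →* H) (ρ₂ : Γ₂ →* H) (h₁ : IsClosedEmbedding ρ₁) (h₂ : IsClosedEmbedding ρ₂) :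
    ∃ (G : Type) (_ : Group G) (_ : TopologicalSpace G) (_ : IsTopologicalGroup G)
      (_ : T2Space G) (ι₁ : Γ₁ →* G) (ι₂ : Γ₂ →* G), IsClosedEmbedding ι₁ ∧ IsClosedEmbedding ι₂ ∧
      ι₁.range ⊔ ι₂.range = ⊤ ∧ ∀ x y, ρ₁ x = ρ₂ y → ι₁ x = ι₂ y := by
  let K : Subgroup H := ρ₁.range ⊔ ρ₂.range
  let ι₁ : Γ₁ →* K := ρ₁.codRestrict K (fun x => Subgroup.mem_sup_left ⟨x, rfl⟩)
  let ι₂ : Γ₂ →* K := ρ₂.codRestrict K (fun x => Subgroup.mem_sup_right ⟨x, rfl⟩)
  refine ⟨K, inferInstance, inferInstance, inferInstance, inferInstance, ι₁, ι₂,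
    IsClosedEmbedding.of_comp IsEmbedding.subtypeVal h₁,
    IsClosedEmbedding.of_comp IsEmbedding.subtypeVal h₂, ?_, fun x y h => Subtype.ext h⟩
  rw [← Subgroup.map_subtype_inj, Subgroup.map_sup, ← MonoidHom.range_eq_map K.subtype,
    Subgroup.range_subtype, MonoidHom.map_range, MonoidHom.map_range]
  rfl

end Homeo

section Semi

variable {H E : Type} [Group H] [NormedAddCommGroup E] [NormedSpace ℝ E]

/-- Semidirect product of a vector group by a linear action. -/
def SD (_ρ : H →* Module.End ℝ E) : Type := E × H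

variable (ρ : H →* Module.End ℝ E)

instance : Mul (SD ρ) := ⟨fun x y => (x.1 + ρ x.2 y.1, x.2 * y.2)⟩
instance : One (SD ρ) := ⟨(0, 1)⟩
instance : Inv (SD ρ) := ⟨fun x => (-ρ x.2⁻¹ x.1, x.2⁻¹)⟩

@[simp] lemma SD.mul_fst (x y : SD ρ) : (x * y).1 = x.1 + ρ x.2 y.1 := rfl
@[simp] lemma SD.mul_snd (x y : SD ρ) : (x * y).2 = x.2 * y.2 := rfl
@[simp] lemma SD.one_fst : (1 : SD ρ).1 = 0 := rfl
@[simp] lemma SD.one_snd : (1 : SD ρ).2 = 1 := rfl
@[simp] lemma SD.inv_fst (x : SD ρ) : (x⁻¹).1 = -ρ x.2⁻¹ x.1 := rfl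
@[simp] lemma SD.inv_snd (x : SD ρ) : (x⁻¹).2 = x.2⁻¹ := rfl

lemma SD.ext {x y : SD ρ} (h1 : x.1 = y.1) (h2 : x.2 = y.2) : x = y := Prod.ext h1 h2

instance : Group (SD ρ) := Group.ofLeftAxioms
  (fun x y z => SD.ext ρ (by simp [add_assoc]) (by simp [mul_assoc]))
  (fun x => SD.ext ρ (by simp) (by simp))
  (fun x => SD.ext ρ (by simp) (by simp))

instance [TopologicalSpace H] : TopologicalSpace (SD ρ) := inferInstanceAs (TopologicalSpace (E × H))

lemma GoodChart.sd [TopologicalSpace H] {F : Type} [NormedAddCommGroup F] [NormedSpace ℝ F]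
    {φ : H → F} (h : GoodChart φ) (a : F × E → E) (ha : ∀ x v, ContDiffAt ℝ ∞ a (φ x, v))
    (ha' : ∀ x v, ρ x v = a (φ x, v)) :
    GoodChart (fun x : SD ρ => ((x.1, φ x.2) : E × F)) := by
  obtain ⟨m, hm, hm'⟩ := h.mul
  obtain ⟨i, hi, hi'⟩ := h.inv
  refine ⟨IsOpenEmbedding.id.prodMap h.emb,
    ⟨fun p => (p.1.1 + a (p.1.2, p.2.1), m (p.1.2, p.2.2)), fun x y => ?_,
      fun x y => by simp [hm', ha']⟩,
    ⟨fun p => (-a (i p.2, p.1), i p.2), fun x => ?_, fun x => by simp [hi', ha']⟩⟩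
  · exact (ContDiffAt.add (by fun_prop)
      (cda_comp (fun p : (E × F) × (E × F) => (p.1.2, p.2.1)) (ha x.2 y.1)
        (by fun_prop) rfl)).prodMk
      (cda_comp (fun p : (E × F) × (E × F) => (p.1.2, p.2.2)) (hm x.2 y.2) (by fun_prop) rfl)
  · have h1 : ContDiffAt ℝ ∞ (fun p : E × F => i p.2) (x.1, φ x.2) :=
      ContDiffAt.comp _ (g := i) (hi x.2) (by fun_prop)
    refine (ContDiffAt.comp _ (g := a) ?_ (h1.prodMk (by fun_prop))).neg.prodMk h1
    simpa [hi'] using ha x.2⁻¹ x.1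

lemma GoodChart.isTopologicalGroup {Γ F : Type} [Group Γ] [TopologicalSpace Γ]
    [NormedAddCommGroup F] [NormedSpace ℝ F] {φ : Γ → F} (h : GoodChart φ) :
    IsTopologicalGroup Γ := by
  letI := h.emb.singletonChartedSpace
  have := h.lieGroup
  exact topologicalGroup_of_lieGroup 𝓘(ℝ, F) ∞

end Semi

end Pool.Agent.MP_e90164_al.H74
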