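import Pool.Agent.MP_e90164_al.H74.Rep

/-! The amalgam with unbounded nilpotency class and dimension. -/

namespace Pool.Agent.MP_e90164_al.H74

open Set Topology Polynomial Multiplicative
open scoped Manifold ContDiff Pointwise commutatorElement

variable {n : ℕ}

attribute [local irreducible] rho nS tS

abbrev FF (n : ℕ) := SD ((rho n).comp nHom)

lemma FF_comm (x g : FF n) : (⁅x, g⁆ : FF n).1 =
    (rho n (nS (toAdd x.2)) g.1 - g.1) - (rho n (nS (toAdd g.2)) x.1 - x.1) ∧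
    (⁅x, g⁆ : FF n).2 = 1 := by
  have h2 : (⁅x, g⁆ : FF n).2 = 1 := by
    simp [commutatorElement_def, mul_comm, mul_left_comm]
  refine ⟨?_, h2⟩
  have h : ⁅x, g⁆ * (g * x) = x * g := by simp [commutatorElement_def, mul_assoc]
  have h1 := congrArg Prod.fst h
  rw [SD.mul_fst, h2, map_one, SD.mul_fst, SD.mul_fst] at h1
  change _ + (g.1 + rho n (nS (toAdd g.2)) x.1) = x.1 + rho n (nS (toAdd x.2)) g.1 at h1
  linear_combination h1

/-- Forms whose dehomogenisation has degree less than `k`. -/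
def DD (k : ℕ) (v : EE n) : Prop := ∃ q : ℝ[X], q.degree < k ∧ ∀ z, ev v 1 z = q.eval z

lemma DD_top (v : EE n) : DD (n + 1) v := by
  obtain ⟨q, h1, h2⟩ := ev_one_poly v
  refine ⟨q, degree_le_natDegree.trans_lt ?_, h2⟩
  exact_mod_cast Nat.lt_succ_of_le h1

lemma ev_nS (s : ℝ) (v : EE n) (z : ℝ) : ev (rho n (nS s) v) 1 z = ev v 1 (z + s) := by
  rw [ev_rho]; simp [add_comm]

lemma DD_step {k : ℕ} {v : EE n} (h : DD k v) (s : ℝ) : DD (k - 1) (v - rho n (nS s) v) := by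
  obtain ⟨q, h1, h2⟩ := h
  refine ⟨q - taylor s q, ?_, fun z => by rw [ev_sub, ev_nS, h2, h2, eval_sub, taylor_eval]⟩
  by_cases hq : q = 0
  · subst hq; simp
  · have h3 := degree_sub_lt (degree_taylor q s).symm hq (leadingCoeff_taylor s q).symm
    refine h3.trans_le ?_
    rw [degree_eq_natDegree hq] at h1 ⊢
    have : q.natDegree < k := by exact_mod_cast h1
    exact_mod_cast (by omega : q.natDegree ≤ k - 1)

def HH (n k : ℕ) : Subgroup (FF n) where
  carrier := {x | x.2 = 1 ∧ DD k x.1}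
  one_mem' := ⟨rfl, 0, by simp, fun z => by simp [ev, gen]⟩
  mul_mem' := by
    rintro x y ⟨h1, p, hp, hp'⟩ ⟨h2, q, hq, hq'⟩
    refine ⟨by simp [h1, h2], p + q, (degree_add_le _ _).trans_lt (max_lt hp hq), fun z => ?_⟩
    simp [h1, ev_add, hp', hq']
  inv_mem' := by
    rintro x ⟨h1, p, hp, hp'⟩
    refine ⟨by simp [h1], -p, by simpa using hp, fun z => ?_⟩
    have := ev_smul (-1) x.1 1 z
    simpa [h1, hp'] using this

instance : Group.IsNilpotent (FF n) := by
  rw [Subgroup.nilpotent_iff_finite_descending_central_series]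
  refine ⟨n + 2, fun k => Nat.casesOn k ⊤ (fun k => HH n (n + 1 - k)), ⟨rfl, ?_⟩, ?_⟩
  · intro x k hx g
    obtain ⟨h1, h2⟩ := FF_comm x g
    cases k with
    | zero => exact ⟨h2, DD_top _⟩
    | succ k =>
      refine ⟨h2, ?_⟩
      have := DD_step hx.2 (toAdd g.2)
      rw [h1, hx.1]
      simpa [nS_zero, Nat.sub_sub] using this
  · rw [eq_bot_iff]
    rintro x ⟨h1, q, hq, hq'⟩
    have : q = 0 := by simpa using hq
    subst this
    exact SD.ext _ (eq_zero_of_ev_one (by simpa using hq')) h1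

lemma lt_class_FF : n < Group.nilpotencyClass (FF n) := by
  by_contra hn
  rw [not_lt, ← Subgroup.lowerCentralSeries_eq_bot_iff_nilpotencyClass_le] at hn
  have key : ∀ k, ∃ x : FF n, x ∈ (⊤ : Subgroup (FF n)).lowerCentralSeries k ∧ x.2 = 1 ∧
      (fun z => ev x.1 1 z) = (fwdDiff 1)^[k] (fun r : ℝ => r ^ n) := by
    intro k
    induction k with
    | zero => exact ⟨(fun _ => 1, 1), trivial, rfl, funext fun z => ev_ones 1 z⟩
    | succ k ih =>
      obtain ⟨x, h1, h2, h3⟩ := ih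
      let g : FF n := (0, ofAdd 1)
      obtain ⟨a1, a2⟩ := FF_comm g x
      refine ⟨⁅g, x⁆, ?_, a2, funext fun z => ?_⟩
      · rw [Subgroup.lowerCentralSeries_succ, Subgroup.commutator_comm]
        exact Subgroup.commutator_mem_commutator trivial h1
      · rw [Function.iterate_succ_apply', ← h3, a1]
        have : g.1 = 0 := rfl
        rw [this, map_zero, sub_zero, sub_zero, ev_sub, ev_nS]
        rfl
  obtain ⟨x, h1, -, h3⟩ := key n
  rw [hn, Subgroup.mem_bot] at h1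
  subst h1
  rw [fwdDiff_iter_eq_factorial] at h3
  have := congrFun h3 0
  simp only [SD.one_fst, ev, gen, Pi.zero_apply, zero_mul, Finset.sum_const_zero,
    Pi.natCast_apply] at this
  exact Nat.factorial_ne_zero n (by exact_mod_cast this.symm)

abbrev UU (n : ℕ) := FF n × Multiplicative ℝ
abbrev G1 (n : ℕ) := FF n × SL2
abbrev G2 (n : ℕ) := SD (rho n) × Multiplicative ℝ

noncomputable def j1 (n : ℕ) : UU n →* G1 n := (MonoidHom.id _).prodMap nHom

noncomputable def j2 (n : ℕ) : UU n →* G2 n := MonoidHom.mk'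
  (fun u => ((u.1.1, nS (toAdd u.1.2)), ofAdd (toAdd u.2 - u.1.1 0))) (by
    intro u w
    refine Prod.ext (SD.ext _ rfl (nS_add _ _)) ?_
    apply toAdd.injective
    change toAdd u.2 + toAdd w.2 - (u.1.1 0 + rho n (nS (toAdd u.1.2)) w.1.1 0) =
      toAdd u.2 - u.1.1 0 + (toAdd w.2 - w.1.1 0)
    rw [rho_nS_zero]; ring)

noncomputable def k2 (n : ℕ) : Multiplicative (EE n × ℝ) →* G2 n := MonoidHom.mk'
  (fun p => (((toAdd p).1, 1), ofAdd (toAdd p).2)) (by
    intro u w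
    refine Prod.ext (SD.ext _ ?_ (by simp)) rfl
    simp)

noncomputable def yS (g : SL2) : SL2 := nS (-tS g) * g

lemma continuous_yS : Continuous yS :=
  (continuous_nS.comp continuous_tS.neg).mul continuous_id

lemma tS_yS (g : SL2) : tS (yS g) = 0 := by simp [yS, tS_nS_mul]

lemma yS_nS_mul (s : ℝ) (g : SL2) : yS (nS s * g) = yS g := by
  simp only [yS, tS_nS_mul, ← mul_assoc, ← nS_add]
  congr 2; ring

lemma yS_yS (g : SL2) : yS (yS g) = yS g := yS_nS_mul _ _

lemma nS_yS (g : SL2) : nS (tS g) * yS g = g := by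
  simp [yS, ← mul_assoc, ← nS_add, nS_zero]

attribute [local irreducible] yS

noncomputable def theta (n : ℕ) : G1 n ≃ₜ G2 n where
  toFun x := ((x.1.1, nS (toAdd x.1.2) * yS x.2), ofAdd (tS x.2 - x.1.1 0))
  invFun z := ((z.1.1, ofAdd (tS z.1.2)), nS (toAdd z.2 + z.1.1 0) * yS z.1.2)
  left_inv x := by
    refine Prod.ext (SD.ext _ rfl ?_) ?_
    · simp [tS_nS_mul, tS_yS]
    · simp [yS_nS_mul, yS_yS, nS_yS]
  right_inv z := by
    refine Prod.ext (SD.ext _ rfl ?_) ?_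
    · simp [yS_nS_mul, yS_yS, nS_yS]
    · simp [tS_nS_mul, tS_yS]
  continuous_toFun := by
    have := continuous_nS
    have := continuous_tS
    have := continuous_yS
    change Continuous (fun x : (EE n × ℝ) × SL2 =>
      (((x.1.1, nS x.1.2 * yS x.2), tS x.2 - x.1.1 0) : (EE n × SL2) × ℝ))
    fun_prop
  continuous_invFun := by
    have := continuous_nS
    have := continuous_tS
    have := continuous_yS
    change Continuous (fun z : (EE n × SL2) × ℝ =>
      (((z.1.1, tS z.1.2), nS (z.2 + z.1.1 0) * yS z.1.2) : (EE n × ℝ) × SL2))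
    fun_prop

lemma theta_fst (x : G1 n) : (theta n x).1.1 = x.1.1 := rfl

lemma theta_mul (u : UU n) (x : G1 n) : theta n (j1 n u * x) = j2 n u * theta n x := by
  refine Prod.ext (SD.ext _ ?_ ?_) ?_
  · rw [Prod.fst_mul, SD.mul_fst, theta_fst, theta_fst, Prod.fst_mul, SD.mul_fst]
    rfl
  · change nS (toAdd u.1.2 + toAdd x.1.2) * yS (nS (toAdd u.2) * x.2) =
      nS (toAdd u.1.2) * (nS (toAdd x.1.2) * yS x.2)
    rw [yS_nS_mul, nS_add, mul_assoc]
  · apply toAdd.injective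
    change tS (nS (toAdd u.2) * x.2) - (u.1.1 0 + rho n (nS (toAdd u.1.2)) x.1.1 0) =
      toAdd u.2 - u.1.1 0 + (tS x.2 - x.1.1 0)
    rw [rho_nS_zero, tS_nS_mul]; ring

lemma chart1 (n : ℕ) : GoodChart (Prod.map (fun x : FF n => ((x.1, toAdd x.2) : EE n × ℝ)) co) :=
  (goodChart_fil n).prod goodChart_co

lemma chart2 (n : ℕ) : GoodChart (Prod.map
    (fun x : SD (rho n) => ((x.1, co x.2) : EE n × ℝ × ℝ × ℝ)) (toAdd : Multiplicative ℝ → ℝ)) :=
  (goodChart_sd n).prod goodChart_toAdd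

lemma chartU (n : ℕ) : GoodChart (Prod.map (fun x : FF n => ((x.1, toAdd x.2) : EE n × ℝ))
    (toAdd : Multiplicative ℝ → ℝ)) :=
  (goodChart_fil n).prod goodChart_toAdd

lemma co_one : co 1 = 0 := by rw [← nS_zero, co_nS]; rfl

theorem exists_amalgam (n : ℕ) :
    ∃ (G : Type) (_ : Group G) (_ : TopologicalSpace G) (_ : IsTopologicalGroup G)
      (_ : T2Space G) (ι₁ : G1 n →* G) (ι₂ : G2 n →* G), IsClosedEmbedding ι₁ ∧
      IsClosedEmbedding ι₂ ∧ ι₁.range ⊔ ι₂.range = ⊤ ∧ ∀ u, ι₁ (j1 n u) = ι₂ (j2 n u) := by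
  have := (chart1 n).isTopologicalGroup
  have := (chart2 n).isTopologicalGroup
  have : LocallyCompactSpace (G2 n) := (chart2 n).emb.locallyCompactSpace
  have : T2Space (G2 n) := (chart2 n).emb.isEmbedding.t2Space
  obtain ⟨G, i1, i2, i3, i4, ι₁, ι₂, h1, h2, h3, h4⟩ := exists_generated _ _
    (Hm.ofAct_closedEmbedding (fun (g : G1 n) (x : G2 n) => theta n (g * (theta n).symm x))
      (by fun_prop) (by simp) (by simp [mul_assoc]) (theta n 1) (theta n).symm (by fun_prop)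
      (by simp))
    (Hm.ofAct_closedEmbedding (fun (g : G2 n) (x : G2 n) => g * x)
      (by fun_prop) (by simp) (by simp [mul_assoc]) 1 id (by fun_prop) (by simp))
  refine ⟨G, i1, i2, i3, i4, ι₁, ι₂, h1, h2, h3, fun u => h4 _ _ (Homeomorph.ext fun x => ?_)⟩
  change theta n (j1 n u * (theta n).symm x) = j2 n u * x
  rw [theta_mul, Homeomorph.apply_symm_apply]

theorem main (N : ℕ) :
    ∃ (G : Type) (_ : Group G) (_ : TopologicalSpace G) (_ : IsTopologicalGroup G)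
      (_ : T2Space G) (G₁ G₂ B₁ B₂ : Subgroup G),
      G₁ ⊔ G₂ = ⊤ ∧ IsSL2Extension B₁ G₁ ∧ IsSL2Extension B₂ G₂ ∧
      (B₁ : Set G) * (B₂ : Set G) ⊆ (G₁ : Set G) ∩ (G₂ : Set G) ∧
      ¬ B₁ ≤ B₂ ∧ ¬ B₂ ≤ B₁ ∧
      (∀ K : Subgroup G, K ≤ B₁ ⊓ B₂ → K.Normal → K = ⊥) ∧
      ∃ U : Subgroup G, (U : Set G) = (B₁ : Set G) * (B₂ : Set G) ∧ Group.IsNilpotent U ∧
        N < Group.nilpotencyClass U ∧ ∃ m d : ℕ, N < m ∧ IsLieSubgroupPair U G₁ m d := by
  set n := N + 1 with hn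
  obtain ⟨G, i1, i2, i3, i4, ι₁, ι₂, h1, h2, h3, h4⟩ := exists_amalgam n
  have ej1 : IsEmbedding (j1 n) := by
    refine IsEmbedding.id.prodMap ?_
    exact Function.LeftInverse.isEmbedding (f := fun g => ofAdd (tS g)) (g := nHom)
      (fun s => tS_nS _) continuous_tS continuous_nS
  have ek2 : IsEmbedding (k2 n) :=
    Function.LeftInverse.isEmbedding (f := fun z : G2 n => ofAdd (z.1.1, toAdd z.2)) (g := k2 n)
      (fun s => rfl)
      (show Continuous (fun z : (EE n × SL2) × ℝ => (z.1.1, z.2)) by fun_prop)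
      (show Continuous (fun p : EE n × ℝ => (((p.1, 1), p.2) : (EE n × SL2) × ℝ)) by fun_prop)
  have e1 : ∀ x : FF n, ι₁ (x, 1) = ι₁ (j1 n (x, 1)) := fun x => by simp [j1]
  have e2 : ∀ p, ι₂ (k2 n p) = ι₁ (j1 n (((toAdd p).1, 1), ofAdd ((toAdd p).2 + (toAdd p).1 0))) := by
    intro p
    rw [h4]
    congr 1
    refine Prod.ext (SD.ext _ rfl nS_zero.symm) ?_
    apply toAdd.injective
    change (toAdd p).2 = (toAdd p).2 + (toAdd p).1 0 - (toAdd p).1 0
    ring
  have hU : (((ι₁.comp (j1 n)).range : Subgroup G) : Set G) =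
      ((ι₁.comp (MonoidHom.inl _ _)).range : Set G) * ((ι₂.comp (k2 n)).range : Set G) := by
    apply Subset.antisymm
    · rintro _ ⟨u, rfl⟩
      refine ⟨_, ⟨u.1, rfl⟩, _, ⟨ofAdd (0, toAdd u.2), rfl⟩, ?_⟩
      change ι₁ (u.1, 1) * ι₂ (k2 n _) = ι₁ (j1 n u)
      rw [e1, e2, ← map_mul, ← map_mul]
      congr 2
      exact Prod.ext (mul_one _) (by simp)
    · rintro _ ⟨_, ⟨x, rfl⟩, _, ⟨p, rfl⟩, rfl⟩
      exact mul_mem (s := (ι₁.comp (j1 n)).range) ⟨_, (e1 x).symm⟩ ⟨_, (e2 p).symm⟩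
  have inter : ∀ (x : FF n) (p : Multiplicative (EE n × ℝ)), ι₁ (x, 1) = ι₂ (k2 n p) →
      x.2 = 1 ∧ (toAdd p).1 0 = -(toAdd p).2 := by
    intro x p h
    rw [e1, e2] at h
    have h' := ej1.injective (h1.injective h)
    have a := congrArg (fun u : UU n => u.1.2) h'
    have b : (0 : ℝ) = (toAdd p).2 + (toAdd p).1 0 := congrArg (fun u : UU n => toAdd u.2) h'
    exact ⟨a, by linarith⟩
  refine ⟨G, i1, i2, i3, i4, ι₁.range, ι₂.range, (ι₁.comp (MonoidHom.inl _ _)).range,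
    (ι₂.comp (k2 n)).range, h3, ?_, ?_, ?_, ?_, ?_, ?_, (ι₁.comp (j1 n)).range, hU, ?_⟩
  · refine ext_of_charts ι₁ h1 _ (isEmbedding_prodMkLeft 1) (chart1 n) (goodChart_fil n)
      (ContinuousLinearEquiv.refl ℝ _) (fun x => Prod.ext rfl co_one)
      (fun p => ⟨(p.1, ofAdd p.2), rfl⟩) (MonoidHom.snd _ _) continuous_snd (fun g => (1, g))
      (by fun_prop) (fun _ => rfl) ?_
    ext z
    constructor
    · rintro ⟨p, rfl⟩; rfl
    · intro hz
      exact ⟨z.1, Prod.ext rfl (Eq.symm hz)⟩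
  · refine ext_of_charts (C := ℝ × ℝ × ℝ) ι₂ h2 _ ek2 (chart2 n) goodChart_toAdd
      ((ContinuousLinearEquiv.prodAssoc ℝ _ _ _).trans
        (((ContinuousLinearEquiv.refl ℝ _).prodCongr (ContinuousLinearEquiv.prodComm ℝ _ _)).trans
        (ContinuousLinearEquiv.prodAssoc ℝ _ _ _).symm))
      (fun x => Prod.ext (Prod.ext rfl co_one) rfl) (fun p => ⟨ofAdd p, rfl⟩)
      (MonoidHom.mk' (fun z : G2 n => z.1.2) (fun _ _ => rfl))
      (show Continuous (fun z : (EE n × SL2) × ℝ => z.1.2) by fun_prop)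
      (fun g => ((0, g), 1))
      (show Continuous (fun g : SL2 => (((0, g), 0) : (EE n × SL2) × ℝ)) by fun_prop)
      (fun _ => rfl) ?_
    ext z
    constructor
    · rintro ⟨p, rfl⟩; rfl
    · intro hz
      exact ⟨ofAdd (z.1.1, toAdd z.2), Prod.ext (SD.ext _ rfl (Eq.symm hz)) rfl⟩
  · rw [← hU]
    rintro _ ⟨u, rfl⟩
    exact ⟨⟨_, rfl⟩, ⟨_, (h4 u).symm⟩⟩
  · intro h
    obtain ⟨p, hp⟩ := h ⟨((0, ofAdd 1) : FF n), rfl⟩
    have : (1 : ℝ) = 0 := congrArg toAdd (inter _ p hp.symm).1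
    exact one_ne_zero this
  · intro h
    obtain ⟨x, hx⟩ := h ⟨ofAdd (0, 1), rfl⟩
    have : (0 : ℝ) = -1 := (inter x _ hx).2
    norm_num at this
  · intro K hK hKn
    rw [eq_bot_iff]
    intro a ha
    obtain ⟨p, rfl⟩ := (hK ha).2
    have key : ∀ g : SL2, rho n g (toAdd p).1 0 = -(toAdd p).2 := by
      intro g
      have hc := hKn.conj_mem _ ha (ι₂ ((0, g), 1))
      have e : ι₂ ((0, g), 1) * (ι₂.comp (k2 n)) p * (ι₂ ((0, g), 1))⁻¹
          = ι₂ (k2 n (ofAdd (rho n g (toAdd p).1, (toAdd p).2))) := by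
        rw [MonoidHom.comp_apply, ← map_inv, ← map_mul, ← map_mul]
        congr 1
        refine Prod.ext (SD.ext _ ?_ ?_) ?_ <;> simp [k2]
      rw [e] at hc
      obtain ⟨x, hx⟩ := (hK hc).1
      exact (inter x _ hx).2
    obtain ⟨a1, a2⟩ := eq_zero_of_const (by omega) key
    have : p = 1 := toAdd.injective (Prod.ext a1 (by simpa using a2))
    rw [this, map_one]
    exact Subgroup.one_mem _
  · have eU := rangeEquiv (ι₁.comp (j1 n)) (h1.isEmbedding.comp ej1)
    have hnil : Group.IsNilpotent (ι₁.comp (j1 n)).range :=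
      Group.nilpotent_of_mulEquiv eU.toMulEquiv
    refine ⟨hnil, ?_, _, _, ?_, pair_of_charts (C := ℝ × ℝ) ι₁ h1.isEmbedding _ ej1 (chart1 n)
      (chartU n) (ContinuousLinearEquiv.prodAssoc ℝ _ _ _)
      (fun x => Prod.ext rfl (co_nS _))⟩
    · have a := Group.nilpotencyClass_le_of_surjective
        ((MonoidHom.fst _ _).comp eU.symm.toMulEquiv.toMonoidHom)
        (Prod.fst_surjective.comp eU.symm.surjective)
      have b := lt_class_FF (n := n)
      omega
    · simp only [Module.finrank_prod, Module.finrank_fin_fun, Module.finrank_self]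
      omega

end Pool.Agent.MP_e90164_al.H74
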