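import Pool.Agent.MP_e90164_al.H74.General

/-! A global chart of `SL₂(ℝ)` and its action on binary forms of degree `n`. -/

namespace Pool.Agent.MP_e90164_al.H74

open Set Topology Polynomial
open scoped Manifold ContDiff

abbrev SL2 := Matrix.SpecialLinearGroup (Fin 2) ℝ

lemma det_eq (g : SL2) : g 0 0 * g 1 1 - g 0 1 * g 1 0 = 1 := by
  have := g.2
  rwa [Matrix.det_fin_two] at this

lemma row_ne (g : SL2) : g 1 0 ^ 2 + g 1 1 ^ 2 ≠ 0 := by
  intro h
  have h1 : g 1 0 = 0 := by nlinarith [sq_nonneg (g 1 0), sq_nonneg (g 1 1)]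
  have h2 : g 1 1 = 0 := by nlinarith [sq_nonneg (g 1 0), sq_nonneg (g 1 1)]
  have := det_eq g
  simp [h1, h2] at this

noncomputable def tt (a b c d : ℝ) : ℝ := (a * c + b * d) / (c ^ 2 + d ^ 2)

noncomputable def co (g : SL2) : ℝ × ℝ × ℝ :=
  (tt (g 0 0) (g 0 1) (g 1 0) (g 1 1), g 1 0, g 1 1 - 1)

noncomputable def fa (z : ℝ × ℝ × ℝ) : ℝ :=
  z.1 * z.2.1 + (z.2.2 + 1) / (z.2.1 ^ 2 + (z.2.2 + 1) ^ 2)

noncomputable def fb (z : ℝ × ℝ × ℝ) : ℝ :=
  z.1 * (z.2.2 + 1) - z.2.1 / (z.2.1 ^ 2 + (z.2.2 + 1) ^ 2)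

def fc (z : ℝ × ℝ × ℝ) : ℝ := z.2.1

def fd (z : ℝ × ℝ × ℝ) : ℝ := z.2.2 + 1

lemma fa_co (g : SL2) : fa (co g) = g 0 0 := by
  have h := row_ne g
  have d := det_eq g
  simp only [fa, co, tt, sub_add_cancel]
  field_simp
  linear_combination (-g 1 1) * d

lemma fb_co (g : SL2) : fb (co g) = g 0 1 := by
  have h := row_ne g
  have d := det_eq g
  simp only [fb, co, tt, sub_add_cancel]
  field_simp
  linear_combination (g 1 0) * d

lemma fc_co (g : SL2) : fc (co g) = g 1 0 := rfl

lemma fd_co (g : SL2) : fd (co g) = g 1 1 := by simp [fd, co]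

lemma cda_fa (g : SL2) : ContDiffAt ℝ ∞ fa (co g) := by
  have h : (co g).2.1 ^ 2 + ((co g).2.2 + 1) ^ 2 ≠ 0 := by simpa [co] using row_ne g
  unfold fa
  exact ContDiffAt.add (by fun_prop) (ContDiffAt.div (by fun_prop) (by fun_prop) h)

lemma cda_fb (g : SL2) : ContDiffAt ℝ ∞ fb (co g) := by
  have h : (co g).2.1 ^ 2 + ((co g).2.2 + 1) ^ 2 ≠ 0 := by simpa [co] using row_ne g
  unfold fb
  exact ContDiffAt.sub (by fun_prop) (ContDiffAt.div (by fun_prop) (by fun_prop) h)

lemma cda_fc (g : SL2) : ContDiffAt ℝ ∞ fc (co g) := by unfold fc; fun_prop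

lemma cda_fd (g : SL2) : ContDiffAt ℝ ∞ fd (co g) := by unfold fd; fun_prop

lemma cda_tt {A : Type} [NormedAddCommGroup A] [NormedSpace ℝ A] {a b c d : A → ℝ} {x : A}
    (ha : ContDiffAt ℝ ∞ a x) (hb : ContDiffAt ℝ ∞ b x) (hc : ContDiffAt ℝ ∞ c x)
    (hd : ContDiffAt ℝ ∞ d x) (h : c x ^ 2 + d x ^ 2 ≠ 0) :
    ContDiffAt ℝ ∞ (fun p => tt (a p) (b p) (c p) (d p)) x := by
  unfold tt
  exact ContDiffAt.div ((ha.mul hc).add (hb.mul hd)) ((hc.pow 2).add (hd.pow 2)) h

lemma continuous_entry (i j : Fin 2) : Continuous (fun g : SL2 => g i j) :=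
  (continuous_apply j).comp (Matrix.SpecialLinearGroup.continuous_apply id continuous_id i)

lemma continuous_co : Continuous co := by
  have := continuous_entry
  unfold co tt
  refine Continuous.prodMk (Continuous.div (by fun_prop) (by fun_prop) row_ne) (by fun_prop)

lemma isOpenEmbedding_co : IsOpenEmbedding co := by
  let S : Set (ℝ × ℝ × ℝ) := {z | z.2.1 ^ 2 + (z.2.2 + 1) ^ 2 ≠ 0}
  have hS : IsOpen S := isOpen_ne_fun (by fun_prop) continuous_const
  let e : SL2 ≃ₜ S :=
    { toFun := fun g => ⟨co g, by simpa [S, co] using row_ne g⟩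
      invFun := fun z => ⟨!![fa z.1, fb z.1; fc z.1, fd z.1], by
        have h : z.1.2.1 ^ 2 + (z.1.2.2 + 1) ^ 2 ≠ 0 := z.2
        rw [Matrix.det_fin_two_of]
        simp only [fa, fb, fc, fd]
        field_simp
        ring⟩
      left_inv := fun g => by
        ext i j
        fin_cases i <;> fin_cases j <;> simp [fa_co, fb_co, fc_co, fd_co]
      right_inv := fun z => by
        have h : z.1.2.1 ^ 2 + (z.1.2.2 + 1) ^ 2 ≠ 0 := z.2
        ext
        · change tt (fa z.1) (fb z.1) (fc z.1) (fd z.1) = _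
          simp only [tt, fa, fb, fc, fd]
          field_simp
          ring
        · rfl
        · change fd z.1 - 1 = _
          simp [fd]
      continuous_toFun := continuous_co.subtype_mk (fun g => by simpa [S, co] using row_ne g)
      continuous_invFun := by
        refine Continuous.subtype_mk (continuous_matrix fun i j => ?_) _
        have h1 : Continuous (fun z : S => fa z.1) := by
          unfold fa
          exact Continuous.add (by fun_prop) (Continuous.div (by fun_prop) (by fun_prop)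
            (fun z => z.2))
        have h2 : Continuous (fun z : S => fb z.1) := by
          unfold fb
          exact Continuous.sub (by fun_prop) (Continuous.div (by fun_prop) (by fun_prop)
            (fun z => z.2))
        have h3 : Continuous (fun z : S => fc z.1) := by unfold fc; fun_prop
        have h4 : Continuous (fun z : S => fd z.1) := by unfold fd; fun_prop
        fin_cases i <;> fin_cases j <;> assumption }
  exact hS.isOpenEmbedding_subtypeVal.comp e.isOpenEmbedding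

lemma mul_entry (g h : SL2) (i j : Fin 2) : (g * h) i j = g i 0 * h 0 j + g i 1 * h 1 j := by
  simp [Matrix.mul_apply, Fin.sum_univ_two]

lemma goodChart_co : GoodChart co := by
  refine ⟨isOpenEmbedding_co,
    ⟨fun p => (tt (fa p.1 * fa p.2 + fb p.1 * fc p.2) (fa p.1 * fb p.2 + fb p.1 * fd p.2)
      (fc p.1 * fa p.2 + fd p.1 * fc p.2) (fc p.1 * fb p.2 + fd p.1 * fd p.2),
      fc p.1 * fa p.2 + fd p.1 * fc p.2, fc p.1 * fb p.2 + fd p.1 * fd p.2 - 1),
      fun x y => ?_, fun x y => ?_⟩,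
    ⟨fun p => (tt (fd p) (-fb p) (-fc p) (fa p), -fc p, fa p - 1), fun x => ?_, fun x => ?_⟩⟩
  · have l : ∀ f : ℝ × ℝ × ℝ → ℝ, ContDiffAt ℝ ∞ f (co x) →
        ContDiffAt ℝ ∞ (fun p : (ℝ × ℝ × ℝ) × (ℝ × ℝ × ℝ) => f p.1) (co x, co y) :=
      fun f hf => cda_comp Prod.fst hf (by fun_prop) rfl
    have r : ∀ f : ℝ × ℝ × ℝ → ℝ, ContDiffAt ℝ ∞ f (co y) →
        ContDiffAt ℝ ∞ (fun p : (ℝ × ℝ × ℝ) × (ℝ × ℝ × ℝ) => f p.2) (co x, co y) :=
      fun f hf => cda_comp Prod.snd hf (by fun_prop) rfl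
    have a1 := l _ (cda_fa x)
    have a2 := l _ (cda_fb x)
    have a3 := l _ (cda_fc x)
    have a4 := l _ (cda_fd x)
    have b1 := r _ (cda_fa y)
    have b2 := r _ (cda_fb y)
    have b3 := r _ (cda_fc y)
    have b4 := r _ (cda_fd y)
    refine (cda_tt ((a1.mul b1).add (a2.mul b3)) ((a1.mul b2).add (a2.mul b4))
      ((a3.mul b1).add (a4.mul b3)) ((a3.mul b2).add (a4.mul b4)) ?_).prodMk
      (((a3.mul b1).add (a4.mul b3)).prodMk (((a3.mul b2).add (a4.mul b4)).sub contDiffAt_const))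
    simpa only [fa_co, fb_co, fc_co, fd_co, mul_entry] using row_ne (x * y)
  · simp only [fa_co, fb_co, fc_co, fd_co]
    simp only [co, mul_entry]
  · refine (cda_tt (cda_fd x) (cda_fb x).neg (cda_fc x).neg (cda_fa x) ?_).prodMk
      ((cda_fc x).neg.prodMk ((cda_fa x).sub contDiffAt_const))
    have := row_ne x⁻¹
    rw [Matrix.SpecialLinearGroup.SL2_inv_expl] at this
    simpa [fa_co, fc_co] using this
  · simp only [fa_co, fb_co, fc_co, fd_co]
    rw [Matrix.SpecialLinearGroup.SL2_inv_expl]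
    rfl

def nS (s : ℝ) : SL2 := ⟨!![1, s; 0, 1], by simp [Matrix.det_fin_two_of]⟩

@[simp] lemma nS00 (s : ℝ) : nS s 0 0 = 1 := rfl
@[simp] lemma nS01 (s : ℝ) : nS s 0 1 = s := rfl
@[simp] lemma nS10 (s : ℝ) : nS s 1 0 = 0 := rfl
@[simp] lemma nS11 (s : ℝ) : nS s 1 1 = 1 := rfl

lemma nS_add (s t : ℝ) : nS (s + t) = nS s * nS t := by
  ext i j
  fin_cases i <;> fin_cases j <;> simp [mul_entry, add_comm]

lemma nS_zero : nS 0 = 1 := by
  ext i j
  fin_cases i <;> fin_cases j <;> simp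

def nHom : Multiplicative ℝ →* SL2 where
  toFun s := nS s.toAdd
  map_one' := nS_zero
  map_mul' s t := nS_add _ _

lemma continuous_nS : Continuous nS := by
  refine Continuous.subtype_mk (continuous_matrix fun i j => ?_) _
  fin_cases i <;> fin_cases j <;> simp <;> fun_prop

lemma co_nS (s : ℝ) : co (nS s) = (s, 0, 0) := by simp [co, tt]

noncomputable def tS (g : SL2) : ℝ := (co g).1

lemma continuous_tS : Continuous tS := continuous_fst.comp continuous_co

lemma tS_nS_mul (s : ℝ) (g : SL2) : tS (nS s * g) = s + tS g := by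
  have h := row_ne g
  simp only [tS, co, tt, mul_entry, nS00, nS01, nS10, nS11, zero_mul, one_mul, zero_add]
  field_simp
  ring

lemma tS_nS (s : ℝ) : tS (nS s) = s := by simp [tS, co_nS]

/-! Binary forms of degree `n`, recorded by their values at the points `(j, 1)`. -/

abbrev EE (n : ℕ) := Fin (n + 1) → ℝ

variable {n : ℕ}

noncomputable def gen (α β : Fin (n + 1) → Fin (n + 1) → ℝ) (v : EE n) (x y : ℝ) : ℝ :=
  ∑ k, v k * ∏ i ∈ Finset.univ.erase k, (α k i * x + β k i * y)

lemma gen_smul (α β : Fin (n + 1) → Fin (n + 1) → ℝ) (v : EE n) (t x y : ℝ) :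
    gen α β v (t * x) (t * y) = t ^ n * gen α β v x y := by
  simp only [gen, Finset.mul_sum]
  refine Finset.sum_congr rfl (fun k _ => ?_)
  have : ∀ i, α k i * (t * x) + β k i * (t * y) = t * (α k i * x + β k i * y) := fun i => by ring
  simp only [this, Finset.prod_mul_distrib, Finset.prod_const, Finset.card_erase_of_mem
    (Finset.mem_univ k), Finset.card_univ, Fintype.card_fin, Nat.add_sub_cancel]
  ring

lemma gen_poly (α β : Fin (n + 1) → Fin (n + 1) → ℝ) (v : EE n) :
    ∃ q : ℝ[X], q.natDegree ≤ n ∧ ∀ z, gen α β v z 1 = q.eval z := by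
  refine ⟨∑ k, C (v k) * ∏ i ∈ Finset.univ.erase k, (C (α k i) * X + C (β k i)), ?_, fun z => ?_⟩
  · refine natDegree_sum_le_of_forall_le _ _ (fun k _ => (natDegree_C_mul_le _ _).trans ?_)
    refine (natDegree_prod_le _ _).trans ?_
    refine (Finset.sum_le_card_nsmul _ _ 1 (fun i _ => natDegree_linear_le)).trans ?_
    simp
  · simp [gen, eval_finset_sum, eval_prod]

lemma gen_ext {α β α' β' : Fin (n + 1) → Fin (n + 1) → ℝ} {v v' : EE n}
    (h : ∀ j : Fin (n + 1), gen α β v (j : ℕ) 1 = gen α' β' v' (j : ℕ) 1) (x y : ℝ) :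
    gen α β v x y = gen α' β' v' x y := by
  obtain ⟨q, hq, hq'⟩ := gen_poly α β v
  obtain ⟨p, hp, hp'⟩ := gen_poly α' β' v'
  have hqp : q = p := by
    refine eq_of_natDegree_lt_card_of_eval_eq q p (f := fun j : Fin (n + 1) => ((j : ℕ) : ℝ))
      (fun i j hij => Fin.ext (Nat.cast_injective (R := ℝ) hij)) (fun j => by rw [← hq', ← hp', h]) ?_
    simp only [Fintype.card_fin]; omega
  have key : ∀ y, y ≠ 0 → gen α β v x y = gen α' β' v' x y := by
    intro y hy
    have e1 := gen_smul α β v y (x / y) 1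
    have e2 := gen_smul α' β' v' y (x / y) 1
    rw [mul_div_cancel₀ _ hy, mul_one] at e1 e2
    rw [e1, e2, hq', hp', hqp]
  have c : ∀ (α β : Fin (n + 1) → Fin (n + 1) → ℝ) (v : EE n),
      Continuous (fun y => gen α β v x y) := by
    intro α β v; unfold gen; fun_prop
  exact congrFun (Continuous.ext_on (dense_compl_singleton (0 : ℝ)) (c α β v) (c α' β' v')
    (fun y hy => key y hy)) y

noncomputable def al (k i : Fin (n + 1)) : ℝ := 1 / (((k : ℕ) : ℝ) - (i : ℕ))

noncomputable def be (k i : Fin (n + 1)) : ℝ := -((i : ℕ) : ℝ) / (((k : ℕ) : ℝ) - (i : ℕ))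

/-- The binary form with values `v j` at the points `(j, 1)`. -/
noncomputable def ev (v : EE n) (x y : ℝ) : ℝ := gen al be v x y

lemma ev_node (v : EE n) (j : Fin (n + 1)) : ev v (j : ℕ) 1 = v j := by
  simp only [ev, gen]
  rw [Finset.sum_eq_single j]
  · rw [Finset.prod_eq_one, mul_one]
    intro i hi
    have : ((j : ℕ) : ℝ) - (i : ℕ) ≠ 0 := by
      rw [sub_ne_zero]
      exact fun h => (Finset.mem_erase.1 hi).1 (Fin.ext (by exact_mod_cast h.symm))
    simp only [al, be]
    field_simp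
    ring
  · intro k _ hk
    rw [Finset.prod_eq_zero (i := j) (Finset.mem_erase.2 ⟨hk.symm, Finset.mem_univ _⟩), mul_zero]
    simp only [al, be]
    ring
  · simp

lemma ev_add (v w : EE n) (x y : ℝ) : ev (v + w) x y = ev v x y + ev w x y := by
  simp [ev, gen, add_mul, Finset.sum_add_distrib]

lemma ev_smul (c : ℝ) (v : EE n) (x y : ℝ) : ev (c • v) x y = c * ev v x y := by
  simp [ev, gen, Finset.mul_sum, mul_assoc]

lemma ev_sub (v w : EE n) (x y : ℝ) : ev (v - w) x y = ev v x y - ev w x y := by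
  simp [ev, gen, sub_mul, Finset.sum_sub_distrib]

noncomputable def act (a b c d : ℝ) (v : EE n) : EE n :=
  fun j => ev v ((j : ℕ) * a + c) ((j : ℕ) * b + d)

lemma ev_act (a b c d : ℝ) (v : EE n) (x y : ℝ) :
    ev (act a b c d v) x y = ev v (x * a + y * c) (x * b + y * d) := by
  have e : ∀ x y, ev v (x * a + y * c) (x * b + y * d) =
      gen (fun k i => al k i * a + be k i * b) (fun k i => al k i * c + be k i * d) v x y := by
    intro x y
    simp only [ev, gen]
    refine Finset.sum_congr rfl (fun k _ => congrArg _ (Finset.prod_congr rfl fun i _ => by ring))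
  rw [e]
  refine gen_ext (fun j => ?_) x y
  rw [← e, one_mul, one_mul]
  exact ev_node _ j

noncomputable def rho (n : ℕ) : SL2 →* Module.End ℝ (EE n) where
  toFun g :=
    { toFun := act (g 0 0) (g 0 1) (g 1 0) (g 1 1)
      map_add' := fun v w => funext fun j => ev_add _ _ _ _
      map_smul' := fun c v => funext fun j => ev_smul _ _ _ _ }
  map_one' := by
    refine LinearMap.ext fun v => funext fun j => ?_
    simp [act, ev_node]
  map_mul' g h := by
    refine LinearMap.ext fun v => funext fun j => ?_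
    change ev v _ _ = ev (act _ _ _ _ v) _ _
    rw [ev_act]
    simp only [mul_entry]
    congr 1 <;> ring

lemma rho_apply (g : SL2) (v : EE n) : rho n g v = act (g 0 0) (g 0 1) (g 1 0) (g 1 1) v := rfl

lemma ev_rho (g : SL2) (v : EE n) (x y : ℝ) :
    ev (rho n g v) x y = ev v (x * g 0 0 + y * g 1 0) (x * g 0 1 + y * g 1 1) := ev_act ..

lemma rho_zero (g : SL2) (v : EE n) : rho n g v 0 = ev v (g 1 0) (g 1 1) := by
  simp [rho_apply, act]

lemma rho_nS_zero (s : ℝ) (v : EE n) : rho n (nS s) v 0 = v 0 := by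
  rw [rho_zero, ← ev_node v 0]; simp

lemma cda_act {A : Type} [NormedAddCommGroup A] [NormedSpace ℝ A] {a b c d : A → ℝ}
    {v : A → EE n} {x : A} (ha : ContDiffAt ℝ ∞ a x) (hb : ContDiffAt ℝ ∞ b x)
    (hc : ContDiffAt ℝ ∞ c x) (hd : ContDiffAt ℝ ∞ d x) (hv : ContDiffAt ℝ ∞ v x) :
    ContDiffAt ℝ ∞ (fun p => act (a p) (b p) (c p) (d p) (v p)) x := by
  refine contDiffAt_pi.2 fun j => ?_
  simp only [act, ev, gen]
  refine ContDiffAt.sum fun k _ => (contDiffAt_pi.1 hv k).mul ?_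
  refine contDiffAt_prod fun i _ => ?_
  fun_prop

lemma goodChart_sd (n : ℕ) : GoodChart (fun x : SD (rho n) => ((x.1, co x.2) : EE n × ℝ × ℝ × ℝ)) :=
  goodChart_co.sd (rho n) (fun p => act (fa p.1) (fb p.1) (fc p.1) (fd p.1) p.2)
    (fun x v => cda_act (cda_comp Prod.fst (cda_fa x) (by fun_prop) rfl)
      (cda_comp Prod.fst (cda_fb x) (by fun_prop) rfl)
      (cda_comp Prod.fst (cda_fc x) (by fun_prop) rfl)
      (cda_comp Prod.fst (cda_fd x) (by fun_prop) rfl) (by fun_prop))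
    (fun x v => by simp only [fa_co, fb_co, fc_co, fd_co, rho_apply])

lemma goodChart_fil (n : ℕ) : GoodChart (fun x : SD ((rho n).comp nHom) =>
    ((x.1, Multiplicative.toAdd x.2) : EE n × ℝ)) :=
  goodChart_toAdd.sd ((rho n).comp nHom) (fun p => act 1 p.1 0 1 p.2)
    (fun x v => cda_act (by fun_prop) (by fun_prop) (by fun_prop) (by fun_prop) (by fun_prop))
    (fun x v => rfl)

lemma eq_zero_of_ev_one {v : EE n} (h : ∀ z, ev v 1 z = 0) : v = 0 := by
  have key : ∀ x y, x ≠ 0 → ev v x y = 0 := by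
    intro x y hx
    have e1 := gen_smul al be v x 1 (y / x)
    rw [mul_div_cancel₀ _ hx, mul_one] at e1
    rw [ev, e1, ← ev, h, mul_zero]
  have c : Continuous (fun x => ev v x 1) := by unfold ev gen; fun_prop
  have := Continuous.ext_on (dense_compl_singleton (0 : ℝ)) c continuous_const
    (fun x hx => key x 1 hx)
  funext j
  rw [← ev_node v j]
  exact congrFun this _

lemma ev_one_poly (v : EE n) : ∃ q : ℝ[X], q.natDegree ≤ n ∧ ∀ z, ev v 1 z = q.eval z := by
  obtain ⟨q, h1, h2⟩ := gen_poly be al v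
  refine ⟨q, h1, fun z => ?_⟩
  rw [← h2]
  simp only [ev, gen, add_comm]

lemma ev_ones (x y : ℝ) : ev (fun _ : Fin (n + 1) => (1 : ℝ)) x y = y ^ n := by
  have e : ∀ x y, gen (fun _ _ : Fin (n + 1) => (0 : ℝ)) (fun _ _ => 1) (Pi.single 0 1) x y
      = y ^ n := by
    intro x y
    simp only [gen]
    rw [Finset.sum_eq_single 0] <;> simp +contextual [Pi.single_apply]
  rw [← e x y]
  refine gen_ext (fun j => ?_) x y
  rw [e, one_pow]
  exact ev_node _ j

lemma eq_zero_of_const {v : EE n} (hn : n ≠ 0) {c : ℝ} (h : ∀ g : SL2, rho n g v 0 = c) :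
    v = 0 ∧ c = 0 := by
  have key : ∀ x y : ℝ, y ≠ 0 → ev v x y = c := by
    intro x y hy
    have := h ⟨!![y⁻¹, 0; x, y], by simp [Matrix.det_fin_two_of, hy]⟩
    rwa [rho_zero] at this
  have h1 := key 0 1 one_ne_zero
  have h2 := key (2 * 0) (2 * 1) (by norm_num)
  rw [ev, gen_smul, ← ev, h1] at h2
  have h3 : (1 : ℝ) < 2 ^ n := one_lt_pow₀ (by norm_num) hn
  have hc : c = 0 := by
    have : (2 ^ n - 1) * c = 0 := by linarith
    exact (mul_eq_zero.1 this).resolve_left (by linarith)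
  refine ⟨funext fun j => ?_, hc⟩
  rw [← ev_node v j, key _ _ one_ne_zero, hc]; rfl

end Pool.Agent.MP_e90164_al.H74
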